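import Pool.Agent.MP_75da70_an.H8.Three
import Pool.Agent.MP_75da70_an.H65.Ses
import Pool.Agent.MP_75da70_an.H91.HomB
import Pool.Agent.MP_75da70_an.H72.Retr
import Pool.Agent.MP_75da70_an.H88.Transport
import Pool.Agent.MP_75da70_an.H41.LemD
import Pool.Agent.MP_75da70_an.H54.CubeB
import Pool.Agent.MP_75da70_an.H50.NotB

/-
The two dimensions agree, they are even or infinite, and all these values occur.
-/

namespace Pool.Agent.MP_75da70_an.H8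

open Filter Topology Set H7

variable {Ω : Type} [TopologicalSpace Ω] [CompactSpace Ω] [T2Space Ω]
  [TotallyDisconnectedSpace Ω]

namespace PS

variable (P : PS Ω)

theorem pj_PK (B : Set Ω) (k : ℕ) : Pj (P.PK B k) := PM.pj (P.cf B k)

theorem pd_Zs (B : Set Ω) : ∀ (r a : ℕ), Pj (P.Zs B (a + r)) → PD r (P.Zs B a)
  | 0, _, h => (PD.zero_iff enough_lT).mpr h
  | r + 1, a, h => fun W => by
    obtain ⟨σ, hσ⟩ := P.ses_Zs B a
    exact EZ.succ_of enough_lT hσ (P.pj_PK B a)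
      (pd_Zs B r (a + 1) (by rwa [show a + 1 + r = a + (r + 1) by omega]) W)

theorem pd_diag_C0 {B : Set Ω} {r : ℕ} (h : Pj (P.Zs B r)) : PD (2 * r) (diag (C0 B)) := by
  have h1 : PD r (C0 B) := P.pd_Zs B r 0 (by rwa [zero_add])
  intro W
  rw [two_mul]
  exact EZ.retr enough_bT (retr_diag_C0 B) (h1.tb h1 W)

theorem pd_IK {n : ℕ} : ∀ j, (∀ i < j, PD n (diag (C0 (P.L i)))) → PD n (diag (P.IK j))
  | 0, _ => fun W => EZ.of_pj (Pj.of_zero fun (m : P.iS 0) => Subtype.ext (ContinuousMap.ext fun x =>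
      P.mem_iS.mp m.2 x (Nat.zero_le _))) n W
  | j + 1, h => fun W => by
    obtain ⟨i, σ, hσ⟩ := P.ses_IK j
    exact EZ.ext enough_bT hσ.diag (pd_IK j (fun i hi => h i (by omega)) W) (h j (by omega) W)

theorem retr_IK {m : ℕ} (hm : P.H ≤ m) : Retr (diag (regL C(Ω, ℂ))) (diag (P.IK m)) ∧
    Retr (diag (P.IK m)) (diag (regL C(Ω, ℂ))) := by
  have h : ∀ f, f ∈ P.iS m := fun f => P.mem_iS.mpr fun x hx => by
    have := P.rs.bd x; omega
  let i : C(Ω, ℂ) →L[ℂ] P.iS m := (ContinuousLinearMap.id ℂ _).codRestrict _ h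
  exact ⟨⟨i, (P.iS m).subtypeL, fun _ _ => rfl, fun _ _ => rfl, fun _ => rfl⟩,
    ⟨(P.iS m).subtypeL, i, fun _ _ => rfl, fun _ _ => rfl, fun _ => rfl⟩⟩

theorem biDim_le {r : ℕ} (h : ∀ j, Pj (P.Zs (P.L j) r)) : biDim C(Ω, ℂ) ≤ (2 * r : ℕ) := by
  refine (biDim_le_iff _).mpr fun W => ?_
  obtain ⟨Q, σ, hσ, hQ⟩ := exists_ses_plus (1 : C(Ω, ℂ)) one_mul
  exact EZ.ext enough_bT hσ (EZ.retr enough_bT (P.retr_IK le_rfl).1
    (P.pd_IK P.H (fun i _ => P.pd_diag_C0 (h i)) W)) (EZ.of_pj hQ _ W)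

theorem ez_IK {r : ℕ} (h : ∀ j, Pj (P.Zs (P.L j) (r + 1))) {W : BM C(Ω, ℂ)}
    (hW : EZ (2 * r + 1) (diag (plusL C(Ω, ℂ))) W) :
    ∀ d m, P.H ≤ m + d → EZ (2 * r + 1) (diag (P.IK m)) W
  | 0, m, hm => by
    obtain ⟨Q, σ, hσ, hQ⟩ := exists_ses_plus (1 : C(Ω, ℂ)) one_mul
    exact EZ.retr enough_bT (P.retr_IK hm).2 (EZ.sub enough_bT hσ hW (EZ.of_pj hQ _ W))
  | d + 1, m, hm => by
    obtain ⟨i, σ, hσ⟩ := P.ses_IK m
    exact EZ.sub enough_bT hσ.diag (ez_IK h hW d (m + 1) (by omega)) (P.pd_diag_C0 (h m) W)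

theorem le_globDim {r : ℕ} (h : ∀ j, Pj (P.Zs (P.L j) (r + 1)))
    (h' : ∃ j, ¬ Pj (P.Zs (P.L j) r)) : ((2 * (r + 1) : ℕ) : ℕ∞) ≤ globDim C(Ω, ℂ) := by
  classical
  by_contra hlt
  have h1 : globDim C(Ω, ℂ) ≤ (2 * r + 1 : ℕ) := by
    refine Order.le_of_lt_add_one ((not_le.mp hlt).trans_le (le_of_eq ?_))
    push_cast; ring
  have h2 := (globDim_le_iff _).mp h1 (LX Ω)
  let j := Nat.find h'
  have h3 : ∀ Y, EZ (2 * r + 1) (diag (C0 (P.L j))) (HomB (LX Ω) Y) := fun Y => by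
    obtain ⟨i, σ, hσ⟩ := P.ses_IK j
    exact EZ.quot enough_bT hσ.diag
      (P.pd_IK j (fun i hi => P.pd_diag_C0 (not_not.mp (Nat.find_min h' hi))) _)
      (P.ez_IK h (ez_homB h2 Y) P.H (j + 1) (by omega))
  have h4 : ∀ p ∈ P.L j, ∃ W, P.Shr W ∧ ∀ x, ∃ ℓ, Good P.le {p} r x {q | x ∈ W q} ℓ := by
    intro p hp
    choose σ hσ using P.ses_Zs {p}
    exact P.good_of_factor {p} r fun Y Φ hΦ => factor_of_ez (P.Zs {p}) (P.PK {p}) (P.jK {p}) σ hσ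
      (P.pj_PK {p}) ((P.retr_Zs (singleton_subset_iff.mpr hp) (r + 1)).pj (h j))
      (EZ.retr enough_bT (retr_point hp) (h3 Y)) Φ hΦ
  choose! W hW hW' using h4
  let W₀ : Ω → Set Ω := fun q => P.V q ∩ ⋂ p ∈ {p | P.le p q} ∩ P.L j, W p q
  have hW₀ : P.Shr W₀ := fun q =>
    ⟨(P.rs.clopen q).inter (((P.finite_below q).inter_of_left _).isClopen_biInter
      fun p hp => (hW p hp.2 q).1),
      ⟨P.rs.self q, mem_iInter₂.mpr fun p hp => (hW p hp.2 q).2.1⟩, inter_subset_left⟩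
  obtain ⟨C, hC⟩ := good_uniform P.N r
  choose ℓ hℓ hℓ' using fun x => hC Ω P.le P.pord (P.L j) x {q | x ∈ W₀ q} (fun q hq => hq.1)
    fun p hp => by
      obtain ⟨ℓ, hℓ⟩ := hW' p hp x
      refine ⟨ℓ, hℓ.mem, hℓ.ret, fun q hq c hc => hℓ.cpt q (mem_iInter₂.mp hq.2 p ⟨?_, hp⟩) c hc⟩
      obtain ⟨-, p', hp', hl⟩ := (mem_Sx_sub (Subset.refl ({p} : Set Ω))).mp hc
      obtain ⟨hch, -, a, t, rfl, ha⟩ := hc
      rw [mem_singleton_iff.mp hp'] at hl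
      exact IsCh.all_le P hch ha p (List.mem_of_getLast? hl)
  obtain ⟨ρ, hρ, hρ'⟩ := P.lemD (P.L j) r hW₀ ℓ C hℓ hℓ'
  obtain ⟨σ, hσ⟩ := P.ses_Zs (P.L j) r
  exact Nat.find_spec h' (hσ.pj_of_retraction (P.pj_PK _ r) ρ hρ hρ')

theorem dims_eq {r : ℕ} (h : ∀ j, Pj (P.Zs (P.L j) r))
    (h' : ∀ s, r = s + 1 → ∃ j, ¬ Pj (P.Zs (P.L j) s)) :
    globDim C(Ω, ℂ) = (2 * r : ℕ) ∧ biDim C(Ω, ℂ) = (2 * r : ℕ) := by
  have h1 := P.biDim_le h
  have h2 : ((2 * r : ℕ) : ℕ∞) ≤ globDim C(Ω, ℂ) := by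
    cases r with
    | zero => exact zero_le
    | succ s => exact P.le_globDim h (h' s rfl)
  exact ⟨le_antisymm (globDim_le_biDim.trans h1) h2, le_antisymm h1 (h2.trans globDim_le_biDim)⟩

include P in
theorem exists_dims : ∃ r : ℕ, globDim C(Ω, ℂ) = (2 * r : ℕ) ∧ biDim C(Ω, ℂ) = (2 * r : ℕ) := by
  classical
  have h : ∃ r, ∀ j, Pj (P.Zs (P.L j) r) := ⟨P.H, fun j => P.pj_Zs_of_H _ (Nat.le_succ _)⟩
  refine ⟨Nat.find h, P.dims_eq (Nat.find_spec h) fun s hs => ?_⟩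
  exact not_forall.mp (Nat.find_min h (by omega))

end PS

omit [TotallyDisconnectedSpace Ω] in
theorem dims_cases : (globDim C(Ω, ℂ) = ⊤ ∧ biDim C(Ω, ℂ) = ⊤) ∨
    ∃ r : ℕ, globDim C(Ω, ℂ) = (2 * r : ℕ) ∧ biDim C(Ω, ℂ) = (2 * r : ℕ) := by
  have key : dg C(Ω, ℂ) = ⊤ → globDim C(Ω, ℂ) = ⊤ ∧ biDim C(Ω, ℂ) = ⊤ := fun h =>
    ⟨globDim_eq.trans h, top_le_iff.mp ((globDim_eq.trans h).ge.trans globDim_le_biDim)⟩
  by_cases h : ∀ m, (Dm Ω m).Nonempty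
  · exact Or.inl (key (dg_eq_top h))
  push Not at h
  obtain ⟨H, hH⟩ := h
  have := totDisc hH
  obtain ⟨U, rk, hU⟩ := exists_RS hH
  by_cases hB : HasB U
  · obtain ⟨P⟩ := HasB.exists_PS hU hB
    exact Or.inr P.exists_dims
  · exact Or.inl (key (dg_eq_top_of_not_hasB hH hU hB))

theorem exists_space (d : ℕ∞) (hd : d = ⊤ ∨ ∃ n : ℕ, d = 2 * n) :
    ∃ (Ω : Type) (_ : TopologicalSpace Ω) (_ : CompactSpace Ω) (_ : T2Space Ω),
      globDim C(Ω, ℂ) = d ∧ biDim C(Ω, ℂ) = d := by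
  rcases hd with rfl | ⟨n, rfl⟩
  · have h : ∀ m, Dm unitInterval m = univ := fun m => by
      induction m with
      | zero => rfl
      | succ m ih =>
        rw [Dm_succ, ih]
        exact (perfect_iff_eq_derivedSet.mp (PerfectSpace.univ_perfect _)).symm
    have h1 : globDim C(unitInterval, ℂ) = ⊤ :=
      globDim_eq.trans (dg_eq_top fun m => h m ▸ univ_nonempty)
    exact ⟨unitInterval, inferInstance, inferInstance, inferInstance, h1,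
      top_le_iff.mp (h1.ge.trans globDim_le_biDim)⟩
  · cases n with
    | zero =>
      let P : PS Unit := ⟨fun _ => univ, fun _ => 0, 1, 1,
        ⟨fun _ => isClopen_univ, fun _ => trivial, fun _ _ _ h => absurd rfl h, fun _ => one_pos⟩,
        fun _ _ _ => Subset.rfl, fun _ T _ => Finset.card_le_univ T⟩
      exact ⟨Unit, inferInstance, inferInstance, inferInstance, by
        simpa using P.dims_eq (r := 0) (fun j => P.pj_Zs_of_H _ le_rfl) fun s hs => by omega⟩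
    | succ n =>
      obtain ⟨Ω, _, _, _, _, P, hH, hj⟩ :=
        exists_cube_of (fun _ _ _ _ _ P B k => P.ses_Zs B k) n
      exact ⟨Ω, inferInstance, inferInstance, inferInstance, by
        simpa using P.dims_eq (r := n + 1) (fun j => P.pj_Zs_of_H _ hH) fun s hs => by
          obtain rfl : n = s := by omega
          exact hj⟩

end Pool.Agent.MP_75da70_an.H8
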