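import Mathlib

/-
Relative (topological) homology of Banach bimodules over a Banach algebra.
-/

namespace Pool.Agent.MP_75da70_an.H8

universe u

/-- A Banach bimodule over `A`: a complex Banach space with bounded bilinear associative left and
right actions of `A` that commute with each other (no unit condition). -/
structure BiMod (A : Type u) [NonUnitalNormedRing A] [NormedSpace ℂ A] : Type (u + 1) where
  carrier : Type u
  [grp : NormedAddCommGroup carrier]
  [spc : NormedSpace ℂ carrier]
  [cpl : CompleteSpace carrier]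
  l : A → carrier → carrier
  r : carrier → A → carrier
  l_bilin : IsBoundedBilinearMap ℂ fun p : A × carrier => l p.1 p.2
  r_bilin : IsBoundedBilinearMap ℂ fun p : carrier × A => r p.1 p.2
  l_mul : ∀ (a b : A) (x : carrier), l (a * b) x = l a (l b x)
  r_mul : ∀ (a b : A) (x : carrier), r x (a * b) = r (r x a) b
  l_r : ∀ (a b : A) (x : carrier), l a (r x b) = r (l a x) b

attribute [instance] BiMod.grp BiMod.spc BiMod.cpl

variable {A : Type u} [NonUnitalNormedRing A] [NormedSpace ℂ A]

/-- `f` is a bounded linear map between the underlying Banach spaces. -/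
def BiBdd (X Y : BiMod A) (f : X.carrier → Y.carrier) : Prop :=
  IsBoundedLinearMap ℂ f

/-- `f` is a morphism: a bounded bimodule map. -/
def BiMor (X Y : BiMod A) (f : X.carrier → Y.carrier) : Prop :=
  BiBdd X Y f ∧ (∀ (a : A) (x : X.carrier), f (X.l a x) = Y.l a (f x)) ∧
    ∀ (a : A) (x : X.carrier), f (X.r x a) = Y.r (f x) a

/-- `σ` is an admissible epimorphism: a morphism with a bounded linear right inverse. -/
def BiAdmEpi (Y X : BiMod A) (σ : Y.carrier → X.carrier) : Prop :=
  BiMor Y X σ ∧ ∃ τ : X.carrier → Y.carrier, BiBdd X Y τ ∧ ∀ x, σ (τ x) = x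

/-- `P` is projective: morphisms out of `P` lift along admissible epimorphisms. -/
def BiProj (P : BiMod A) : Prop :=
  ∀ (Y X : BiMod A) (σ : Y.carrier → X.carrier), BiAdmEpi Y X σ →
    ∀ φ : P.carrier → X.carrier, BiMor P X φ →
      ∃ ψ : P.carrier → Y.carrier, BiMor P Y ψ ∧ ∀ p, σ (ψ p) = φ p

/-- `0 ← X ← P 0 ← P 1 ← ⋯` is a complex of bimodules and morphisms. -/
def BiIsCx (X : BiMod A) (P : ℕ → BiMod A) (ε : (P 0).carrier → X.carrier)
    (d : ∀ k, (P (k + 1)).carrier → (P k).carrier) : Prop :=
  BiMor (P 0) X ε ∧ (∀ k, BiMor (P (k + 1)) (P k) (d k)) ∧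
    (∀ p, ε (d 0 p) = 0) ∧ ∀ k p, d k (d (k + 1) p) = 0

/-- The complex has a bounded linear contracting homotopy `t`, `s k`: it is exact and splits as a
complex of Banach spaces. -/
def BiSplits (X : BiMod A) (P : ℕ → BiMod A) (ε : (P 0).carrier → X.carrier)
    (d : ∀ k, (P (k + 1)).carrier → (P k).carrier) : Prop :=
  ∃ (t : X.carrier → (P 0).carrier) (s : ∀ k, (P k).carrier → (P (k + 1)).carrier),
    BiBdd X (P 0) t ∧ (∀ k, BiBdd (P k) (P (k + 1)) (s k)) ∧
    (∀ x, ε (t x) = x) ∧ (∀ p, d 0 (s 0 p) + t (ε p) = p) ∧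
    ∀ k p, d (k + 1) (s (k + 1) p) + s k (d k p) = p

/-- `X` has a projective bimodule resolution with `P k = 0` for all `k > n`. -/
def BiHasRes (X : BiMod A) (n : ℕ) : Prop :=
  ∃ (P : ℕ → BiMod A) (ε : (P 0).carrier → X.carrier)
    (d : ∀ k, (P (k + 1)).carrier → (P k).carrier),
    (∀ k, BiProj (P k)) ∧ BiIsCx X P ε d ∧ BiSplits X P ε d ∧
      ∀ k, n < k → ∀ p : (P k).carrier, p = 0

/-- Homological dimension of a bimodule: the least length of a projective resolution, `⊤` if there
is no resolution of finite length. -/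
noncomputable def biHomDim (X : BiMod A) : ℕ∞ :=
  ⨅ (n : ℕ) (_ : BiHasRes X n), (n : ℕ∞)

variable (A) [CompleteSpace A] [IsScalarTower ℂ A A] [SMulCommClass ℂ A A]

omit [CompleteSpace A] in
theorem isBoundedLinearMap_inr :
    IsBoundedLinearMap ℂ fun a : A => WithLp.toLp 1 (a : Unitization ℂ A) :=
  ⟨⟨fun a b => by simp, fun c a => by simp⟩, 1, one_pos,
    fun a => by rw [WithLp.unitization_norm_inr, one_mul]⟩

/-- The unitization `A₊ = ℂ ⊕ A` (norm `|λ| + ‖a‖`) as a bimodule over `A`, the actions being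
multiplication in `A₊`. -/
noncomputable def plus : BiMod A where
  carrier := WithLp 1 (Unitization ℂ A)
  l := fun a x => WithLp.toLp 1 (a : Unitization ℂ A) * x
  r := fun x a => x * WithLp.toLp 1 (a : Unitization ℂ A)
  l_bilin := ((ContinuousLinearMap.mul ℂ (WithLp 1 (Unitization ℂ A))).comp
    (IsBoundedLinearMap.toContinuousLinearMap _ (isBoundedLinearMap_inr A))).isBoundedBilinearMap
  r_bilin := ((ContinuousLinearMap.mul ℂ (WithLp 1 (Unitization ℂ A))).flip.comp
    (IsBoundedLinearMap.toContinuousLinearMap _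
      (isBoundedLinearMap_inr A))).flip.isBoundedBilinearMap
  l_mul := fun a b x => by rw [← mul_assoc, Unitization.inr_mul]; rfl
  r_mul := fun a b x => by rw [mul_assoc, Unitization.inr_mul]; rfl
  l_r := fun a b x => (mul_assoc _ _ _).symm

/-- Bidimension: the bimodule homological dimension of the unitization. -/
noncomputable def biDim : ℕ∞ :=
  biHomDim (plus A)

end Pool.Agent.MP_75da70_an.H8
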