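import Mathlib

/-
Chains in an ordered set, written as lists with the largest element first.
-/

namespace Pool.Agent.MP_75da70_an.H8

variable {T : Type}

/-- formal combinations of lists. -/
abbrev FL (T : Type) : Type := List T →₀ ℂ

/-- put `x` in front of every list. -/
noncomputable def cone (x : T) : FL T →ₗ[ℂ] FL T := Finsupp.lmapDomain ℂ ℂ (List.cons x)

/-- the boundary of a list; the last entry is never removed. -/
noncomputable def dB : List T → FL T
  | [] => 0
  | [_] => 0
  | x :: y :: l => Finsupp.single (y :: l) 1 - cone x (dB (y :: l))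

noncomputable def dF : FL T →ₗ[ℂ] FL T := Finsupp.linearCombination ℂ dB

open Classical in
/-- the contraction with apex `y`. -/
noncomputable def hF (y : T) : FL T →ₗ[ℂ] FL T :=
  Finsupp.linearCombination ℂ fun c => if c.head? = some y then 0 else Finsupp.single (y :: c) 1

variable (le : T → T → Prop) (B : Set T)

/-- strictly decreasing lists that end in `B`. -/
def IsCh : List T → Prop
  | [] => False
  | [p] => p ∈ B
  | x :: y :: l => (le y x ∧ x ≠ y) ∧ IsCh (y :: l)

/-- chains with `k + 1` entries below `x`. -/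
def Sx (k : ℕ) (x : T) : Set (List T) :=
  {c | IsCh le B c ∧ c.length = k + 1 ∧ ∃ h t, c = h :: t ∧ le h x}

/-- the same without the chain `[x]`. -/
def So (k : ℕ) (x : T) : Set (List T) := {c | c ∈ Sx le B k x ∧ c ≠ [x]}

/-- cycles in the fibre at `x`. -/
noncomputable def Zf (k : ℕ) (x : T) : Submodule ℂ (FL T) :=
  Finsupp.supported ℂ ℂ (So le B k x) ⊓ LinearMap.ker dF

/-- `ℓ` is a retraction of the fibre at `x` onto its cycles compatible with the points of `K`. -/
structure Good (k : ℕ) (x : T) (K : Set T) (ℓ : List T → FL T) : Prop where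
  mem : ∀ c ∈ Sx le B k x, ℓ c ∈ Zf le B k x
  ret : ∀ ζ ∈ Zf le B k x, Finsupp.linearCombination ℂ ℓ ζ = ζ
  cpt : ∀ q ∈ K, ∀ c ∈ Sx le B k q, ℓ c ∈ Finsupp.supported ℂ ℂ (So le B k q)

/-- a partial order in which every point has at most `N` points below it. -/
structure POrd (N : ℕ) : Prop where
  refl : ∀ x, le x x
  trans : ∀ x y z, le x y → le y z → le x z
  anti : ∀ x y, le x y → le y x → x = y
  ord : ∀ (y : T) (S : Finset T), (∀ x ∈ S, le x y) → S.card ≤ N

end Pool.Agent.MP_75da70_an.H8
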