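import Pool.Agent.MP_75da70_an.H7.Ess
import Pool.Agent.MP_75da70_an.H8.Bi

/-
Banach spaces with operators: a common frame for left modules and bimodules.
-/

namespace Pool.Agent.MP_75da70_an.H8

open H7

section Generic

variable {ι : Type} [NormedAddCommGroup ι] [NormedSpace ℂ ι]

/-- componentwise operators on a product. -/
noncomputable def prodOp {V W : Type} [NormedAddCommGroup V] [NormedSpace ℂ V]
    [NormedAddCommGroup W] [NormedSpace ℂ W] (o : ι →L[ℂ] V →L[ℂ] V) (o' : ι →L[ℂ] W →L[ℂ] W) :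
    ι →L[ℂ] (V × W) →L[ℂ] (V × W) :=
  (ContinuousLinearMap.prodMapL ℂ V V W W).comp (o.prod o')

@[simp] theorem prodOp_apply {V W : Type} [NormedAddCommGroup V] [NormedSpace ℂ V]
    [NormedAddCommGroup W] [NormedSpace ℂ W] (o : ι →L[ℂ] V →L[ℂ] V) (o' : ι →L[ℂ] W →L[ℂ] W)
    (i : ι) (z : V × W) : prodOp o o' i z = (o i z.1, o' i z.2) := rfl

variable (ι) in
/-- a class of spaces with operators, closed under subobjects and products. -/
structure Thy : Type 1 where
  ax : ∀ (V : Type) [NormedAddCommGroup V] [NormedSpace ℂ V], (ι →L[ℂ] V →L[ℂ] V) → Prop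
  ax_inj : ∀ (V W : Type) [NormedAddCommGroup V] [NormedSpace ℂ V] [NormedAddCommGroup W]
    [NormedSpace ℂ W] (o : ι →L[ℂ] V →L[ℂ] V) (o' : ι →L[ℂ] W →L[ℂ] W) (f : V →L[ℂ] W),
    Function.Injective f → (∀ i x, f (o i x) = o' i (f x)) → ax W o' → ax V o
  ax_prod : ∀ (V W : Type) [NormedAddCommGroup V] [NormedSpace ℂ V] [NormedAddCommGroup W]
    [NormedSpace ℂ W] (o : ι →L[ℂ] V →L[ℂ] V) (o' : ι →L[ℂ] W →L[ℂ] W),
    ax V o → ax W o' → ax (V × W) (prodOp o o')

/-- an object of the class. -/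
structure Obj (T : Thy ι) : Type 1 where
  carrier : Type
  [grp : NormedAddCommGroup carrier]
  [spc : NormedSpace ℂ carrier]
  [cpl : CompleteSpace carrier]
  op : ι →L[ℂ] carrier →L[ℂ] carrier
  ax : T.ax carrier op

attribute [instance] Obj.grp Obj.spc Obj.cpl

variable {T : Thy ι}

def Mr (X Y : Obj T) (f : X.carrier →L[ℂ] Y.carrier) : Prop :=
  ∀ i x, f (X.op i x) = Y.op i (f x)

def Pj (P : Obj T) : Prop :=
  ∀ (Y X : Obj T) (σ : Y.carrier →L[ℂ] X.carrier), Mr Y X σ →
    (∃ τ : X.carrier →L[ℂ] Y.carrier, ∀ x, σ (τ x) = x) →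
    ∀ φ : P.carrier →L[ℂ] X.carrier, Mr P X φ →
      ∃ ψ : P.carrier →L[ℂ] Y.carrier, Mr P Y ψ ∧ ∀ p, σ (ψ p) = φ p

/-- an admissible short exact sequence `0 → K → Q → M → 0`. -/
structure SES (K Q M : Obj T) (j : K.carrier →L[ℂ] Q.carrier) (σ : Q.carrier →L[ℂ] M.carrier) :
    Prop where
  mj : Mr K Q j
  mσ : Mr Q M σ
  split : ∃ (ρ : Q.carrier →L[ℂ] K.carrier) (s : M.carrier →L[ℂ] Q.carrier),
    (∀ k, ρ (j k) = k) ∧ (∀ m, σ (s m) = m) ∧ ∀ t, j (ρ t) + s (σ t) = t

/-- `M` is a retract of `N`. -/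
def Retr (M N : Obj T) : Prop :=
  ∃ (i : M.carrier →L[ℂ] N.carrier) (π : N.carrier →L[ℂ] M.carrier),
    Mr M N i ∧ Mr N M π ∧ ∀ m, π (i m) = m

/-- vanishing of `Ext` in degree `k + 1`. -/
def EZ : ℕ → Obj T → Obj T → Prop
  | 0, M, W => ∀ (K Q : Obj T) (j : K.carrier →L[ℂ] Q.carrier) (σ : Q.carrier →L[ℂ] M.carrier),
      SES K Q M j σ → ∀ φ : K.carrier →L[ℂ] W.carrier, Mr K W φ →
        ∃ ψ : Q.carrier →L[ℂ] W.carrier, Mr Q W ψ ∧ ∀ k, ψ (j k) = φ k
  | k + 1, M, W => ∀ (K P : Obj T) (j : K.carrier →L[ℂ] P.carrier)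
      (σ : P.carrier →L[ℂ] M.carrier), SES K P M j σ → Pj P → EZ k K W

/-- projective dimension at most `n`. -/
def PD (n : ℕ) (M : Obj T) : Prop := ∀ W, EZ n M W

def HasR (X : Obj T) (n : ℕ) : Prop :=
  ∃ (P : ℕ → Obj T) (ε : (P 0).carrier →L[ℂ] X.carrier)
    (d : ∀ k, (P (k + 1)).carrier →L[ℂ] (P k).carrier)
    (t : X.carrier →L[ℂ] (P 0).carrier)
    (s : ∀ k, (P k).carrier →L[ℂ] (P (k + 1)).carrier),
    (∀ k, Pj (P k)) ∧ Mr (P 0) X ε ∧ (∀ k, Mr (P (k + 1)) (P k) (d k)) ∧
    (∀ p, ε (d 0 p) = 0) ∧ (∀ k p, d k (d (k + 1) p) = 0) ∧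
    (∀ x, ε (t x) = x) ∧ (∀ p, d 0 (s 0 p) + t (ε p) = p) ∧
    (∀ k p, d (k + 1) (s (k + 1) p) + s k (d k p) = p) ∧
    (∀ k, n < k → ∀ p : (P k).carrier, p = 0)

variable (T) in
/-- there are enough projective objects. -/
def Enough : Prop :=
  ∀ M : Obj T, ∃ (K P : Obj T) (j : K.carrier →L[ℂ] P.carrier) (σ : P.carrier →L[ℂ] M.carrier),
    SES K P M j σ ∧ Pj P

/-- restriction of operators to an invariant subspace. -/
noncomputable def subOp {V : Type} [NormedAddCommGroup V] [NormedSpace ℂ V]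
    (o : ι →L[ℂ] V →L[ℂ] V) (S : Submodule ℂ V) (hS : ∀ i, ∀ x ∈ S, o i x ∈ S) :
    ι →L[ℂ] S →L[ℂ] S :=
  (LinearMap.mk₂ ℂ (fun i (x : S) => (⟨o i x, hS i x x.2⟩ : S))
    (fun _ _ _ => Subtype.ext (by simp)) (fun _ _ _ => Subtype.ext (by simp))
    (fun _ _ _ => Subtype.ext (by simp)) (fun _ _ _ => Subtype.ext (by simp))).mkContinuous₂
    ‖o‖ fun i x => o.le_opNorm₂ i x

@[simp] theorem subOp_val {V : Type} [NormedAddCommGroup V] [NormedSpace ℂ V]
    (o : ι →L[ℂ] V →L[ℂ] V) (S : Submodule ℂ V) (hS : ∀ i, ∀ x ∈ S, o i x ∈ S) (i : ι) (x : S) :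
    (subOp o S hS i x : V) = o i x := rfl

/-- a closed invariant subspace. -/
@[reducible] noncomputable def Obj.sub (X : Obj T) (S : Submodule ℂ X.carrier)
    (hc : IsClosed (S : Set X.carrier)) (hS : ∀ i, ∀ x ∈ S, X.op i x ∈ S) : Obj T where
  carrier := S
  cpl := hc.completeSpace_coe
  op := subOp X.op S hS
  ax := T.ax_inj _ _ _ _ S.subtypeL Subtype.val_injective (fun _ _ => rfl) X.ax

/-- the kernel of a morphism. -/
@[reducible] noncomputable def Obj.ker (X Y : Obj T) (f : X.carrier →L[ℂ] Y.carrier)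
    (hf : Mr X Y f) : Obj T :=
  X.sub f.ker f.isClosed_ker fun i x hx => by
    simp only [LinearMap.mem_ker, ContinuousLinearMap.coe_coe] at hx ⊢
    rw [hf, hx, map_zero]

@[reducible] noncomputable def Obj.prod (X Y : Obj T) : Obj T where
  carrier := X.carrier × Y.carrier
  op := prodOp X.op Y.op
  ax := T.ax_prod _ _ _ _ X.ax Y.ax

end Generic

section Tensor

variable {A E F : Type} [NormedAddCommGroup A] [NormedSpace ℂ A] [NormedAddCommGroup E]
  [NormedSpace ℂ E] [NormedAddCommGroup F] [NormedSpace ℂ F]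

variable (F) in
/-- operators acting on the left factor. -/
noncomputable def lact (o : A →L[ℂ] E →L[ℂ] E) : A →L[ℂ] PT E F →L[ℂ] PT E F :=
  LinearMap.mkContinuous
    { toFun := fun a => PT.lift ((tm E F).comp (o a))
      map_add' := fun a b => PT.ext fun e f => by simp
      map_smul' := fun c a => PT.ext fun e f => by simp } (‖tm E F‖ * ‖o‖) fun a => by
        refine ContinuousLinearMap.opNorm_le_bound _ (by positivity) fun t => ?_
        refine (PT.norm_lift_le _ t).trans (mul_le_mul_of_nonneg_right ?_ (norm_nonneg _))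
        refine (ContinuousLinearMap.opNorm_comp_le _ _).trans ?_
        rw [mul_assoc]
        exact mul_le_mul_of_nonneg_left (o.le_opNorm a) (norm_nonneg _)

@[simp] theorem lact_tm (o : A →L[ℂ] E →L[ℂ] E) (a : A) (e : E) (f : F) :
    lact F o a (tm E F e f) = tm E F (o a e) f := PT.lift_tm _ _ _

variable (E) in
/-- operators acting on the right factor. -/
noncomputable def ract (o : A →L[ℂ] F →L[ℂ] F) : A →L[ℂ] PT E F →L[ℂ] PT E F :=
  LinearMap.mkContinuous
    { toFun := fun a => PT.lift ((tm E F).flip.comp (o a)).flip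
      map_add' := fun a b => PT.ext fun e f => by simp
      map_smul' := fun c a => PT.ext fun e f => by simp } (‖tm E F‖ * ‖o‖) fun a => by
        refine ContinuousLinearMap.opNorm_le_bound _ (by positivity) fun t => ?_
        refine (PT.norm_lift_le _ t).trans (mul_le_mul_of_nonneg_right ?_ (norm_nonneg _))
        rw [ContinuousLinearMap.opNorm_flip]
        refine (ContinuousLinearMap.opNorm_comp_le _ _).trans ?_
        rw [mul_assoc, ContinuousLinearMap.opNorm_flip]
        exact mul_le_mul_of_nonneg_left (o.le_opNorm a) (ContinuousLinearMap.opNorm_nonneg _)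

@[simp] theorem ract_tm (o : A →L[ℂ] F →L[ℂ] F) (a : A) (e : E) (f : F) :
    ract E o a (tm E F e f) = tm E F e (o a f) := PT.lift_tm _ _ _

theorem pt_ext {G : Type} [NormedAddCommGroup G] [NormedSpace ℂ G] (φ ψ : PT E F →L[ℂ] G)
    (h : ∀ e f, φ (tm E F e f) = ψ (tm E F e f)) (t : PT E F) : φ t = ψ t :=
  DFunLike.congr_fun (PT.ext h) t

end Tensor

section LB

variable (A : Type) [NonUnitalNormedCommRing A] [NormedSpace ℂ A]

/-- left modules. -/
def lT : Thy A where
  ax := fun _ _ _ o => ∀ a b x, o (a * b) x = o a (o b x)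
  ax_inj := fun _ _ _ _ _ _ _ _ f hf h h' a b x => hf (by rw [h, h, h, h'])
  ax_prod := fun _ _ _ _ _ _ _ _ h h' a b x => by simp [h a b, h' a b]

/-- bimodules over a commutative algebra: `(a, 0)` acts on the left and `(0, a)` on the right. -/
def bT : Thy (A × A) where
  ax := fun _ _ _ o => (∀ a b x, o (a * b, 0) x = o (a, 0) (o (b, 0) x)) ∧
    (∀ a b x, o (0, a * b) x = o (0, a) (o (0, b) x)) ∧
    ∀ a b x, o (a, 0) (o (0, b) x) = o (0, b) (o (a, 0) x)
  ax_inj := fun _ _ _ _ _ _ _ _ f hf h h' =>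
    ⟨fun a b x => hf (by rw [h, h, h, h'.1]), fun a b x => hf (by rw [h, h, h, h'.2.1]),
      fun a b x => hf (by rw [h, h, h, h, h'.2.2])⟩
  ax_prod := fun _ _ _ _ _ _ _ _ h h' =>
    ⟨fun a b x => by simp only [prodOp_apply, h.1 a b, h'.1 a b],
      fun a b x => by simp only [prodOp_apply, h.2.1 a b, h'.2.1 a b],
      fun a b x => by simp only [prodOp_apply, h.2.2 a b, h'.2.2 a b]⟩

abbrev LM := Obj (lT A)
abbrev BM := Obj (bT A)

variable {A}

theorem op_mul (X : LM A) (a b : A) (x : X.carrier) : X.op (a * b) x = X.op a (X.op b x) :=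
  X.ax a b x

theorem op_comm (X : LM A) (a b : A) (x : X.carrier) : X.op a (X.op b x) = X.op b (X.op a x) := by
  rw [← op_mul, ← op_mul, mul_comm]

/-- a bimodule from two commuting actions. -/
@[reducible] noncomputable def mkBi (V : Type) [NormedAddCommGroup V] [NormedSpace ℂ V]
    [CompleteSpace V] (l r : A →L[ℂ] V →L[ℂ] V) (hl : ∀ a b x, l (a * b) x = l a (l b x))
    (hr : ∀ a b x, r (a * b) x = r a (r b x)) (hc : ∀ a b x, l a (r b x) = r b (l a x)) :
    BM A where
  carrier := V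
  op := l.coprod r
  ax := ⟨fun a b x => by simp [hl], fun a b x => by simp [hr], fun a b x => by simp [hc]⟩

theorem mr_bi {X Y : BM A} {f : X.carrier →L[ℂ] Y.carrier}
    (h1 : ∀ a x, f (X.op (a, 0) x) = Y.op (a, 0) (f x))
    (h2 : ∀ a x, f (X.op (0, a) x) = Y.op (0, a) (f x)) : Mr X Y f := by
  rintro ⟨a, b⟩ x
  have : ((a, b) : A × A) = (a, 0) + (0, b) := by simp
  rw [this]
  simp only [map_add, add_apply, h1, h2]

/-- the underlying left module. -/
@[reducible] noncomputable def Obj.left (X : BM A) : LM A where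
  carrier := X.carrier
  op := X.op.comp (ContinuousLinearMap.inl ℂ A A)
  ax := X.ax.1

/-- the underlying right module. -/
@[reducible] noncomputable def Obj.right (X : BM A) : LM A where
  carrier := X.carrier
  op := X.op.comp (ContinuousLinearMap.inr ℂ A A)
  ax := X.ax.2.1

/-- the bimodule with equal left and right actions. -/
@[reducible] noncomputable def diag (M : LM A) : BM A :=
  mkBi M.carrier M.op M.op (op_mul M) (op_mul M) (op_comm M)

/-- tensor product of a module with a normed space. -/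
@[reducible] noncomputable def TL (M : LM A) (E : Type) [NormedAddCommGroup E] [NormedSpace ℂ E] :
    LM A where
  carrier := PT M.carrier E
  op := lact E M.op
  ax := fun a b => pt_ext _ ((lact E M.op a).comp (lact E M.op b)) fun e f => by simp [op_mul]

/-- outer tensor product of two modules. -/
@[reducible] noncomputable def TB (M N : LM A) : BM A :=
  mkBi (PT M.carrier N.carrier) (lact _ M.op) (ract _ N.op)
    (fun a b => pt_ext _ ((lact _ M.op a).comp (lact _ M.op b)) fun e f => by simp [op_mul])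
    (fun a b => pt_ext _ ((ract _ N.op a).comp (ract _ N.op b)) fun e f => by simp [op_mul])
    (fun a b => pt_ext ((lact _ M.op a).comp (ract _ N.op b))
      ((ract _ N.op b).comp (lact _ M.op a)) fun e f => by simp)

/-- bounded operators between two modules. -/
@[reducible] noncomputable def HomB (X Y : LM A) : BM A :=
  mkBi (X.carrier →L[ℂ] Y.carrier)
    ((ContinuousLinearMap.compL ℂ X.carrier Y.carrier Y.carrier).comp Y.op)
    ((ContinuousLinearMap.compL ℂ X.carrier X.carrier Y.carrier).flip.comp X.op)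
    (fun a b t => by ext x; simp [op_mul])
    (fun a b t => by ext x; simp [op_mul, op_comm X a b])
    (fun a b t => by ext x; simp)

variable (A) [CompleteSpace A] [IsScalarTower ℂ A A] [SMulCommClass ℂ A A]

/-- the algebra as a module over itself. -/
@[reducible] noncomputable def regL : LM A where
  carrier := A
  op := ContinuousLinearMap.mul ℂ A
  ax := fun a b x => mul_assoc a b x

/-- the inclusion into the unitization. -/
noncomputable def inrL : A →L[ℂ] WithLp 1 (Unitization ℂ A) :=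
  IsBoundedLinearMap.toContinuousLinearMap _ (isBoundedLinearMap_inr A)

omit [CompleteSpace A] in
theorem inrL_apply (a : A) : inrL A a = WithLp.toLp 1 (a : Unitization ℂ A) := rfl

omit [CompleteSpace A] in
theorem inrL_mul (a b : A) : inrL A (a * b) = inrL A a * inrL A b := by
  rw [inrL_apply, Unitization.inr_mul]; rfl

/-- the unitization as a module. -/
@[reducible] noncomputable def plusL : LM A where
  carrier := WithLp 1 (Unitization ℂ A)
  op := (ContinuousLinearMap.mul ℂ (WithLp 1 (Unitization ℂ A))).comp (inrL A)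
  ax := fun a b x => by simp [inrL_mul, mul_assoc]

end LB

end Pool.Agent.MP_75da70_an.H8
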