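import Pool.Agent.MP_75da70_an.H7.Main

/-
Definitions for the case of finite height without a bounded neighbourhood assignment.
-/

namespace Pool.Agent.MP_75da70_an.H8

open Filter Topology Set H7

variable {Ω : Type} [TopologicalSpace Ω]

/-- a rank structure: clopen neighbourhoods in which all other points have smaller rank. -/
structure RS (U : Ω → Set Ω) (rk : Ω → ℕ) (H : ℕ) : Prop where
  clopen : ∀ x, IsClopen (U x)
  self : ∀ x, x ∈ U x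
  lt : ∀ x y, y ∈ U x → y ≠ x → rk y < rk x
  bd : ∀ x, rk x < H

/-- every point lies in at most `N` of the sets `W x`. -/
def OrdLe (W : Ω → Set Ω) (N : ℕ) : Prop :=
  ∀ (y : Ω) (T : Finset Ω), (∀ x ∈ T, y ∈ W x) → T.card ≤ N

/-- the neighbourhoods `U x` can be shrunk to clopen neighbourhoods of bounded order. -/
def HasB (U : Ω → Set Ω) : Prop :=
  ∃ (W : Ω → Set Ω) (N : ℕ), (∀ x, IsClopen (W x) ∧ x ∈ W x ∧ W x ⊆ U x) ∧ OrdLe W N

/-- the points of `S` have neighbourhoods of order at most `k` at the points of `D`. -/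
def Small (D : Set Ω) (k : ℕ) (S : Set Ω) : Prop :=
  ∃ W : Ω → Set Ω, (∀ γ ∈ S, W γ ∈ 𝓝 γ) ∧
    ∀ v ∈ D, ∀ T : Finset Ω, (∀ γ ∈ T, γ ∈ S ∧ v ∈ W γ) → T.card ≤ k

/-- a set `Γ` accumulating only at `q`, with neighbourhoods that are almost of order `N` on `D`. -/
structure Fam (q : Ω) (Γ D : Set Ω) (N : ℕ) : Prop where
  notMem : q ∉ Γ
  fin : ∀ O, IsClopen O → q ∉ O → (Γ ∩ O).Finite
  disj : Disjoint Γ D
  nb : ∃ W : Ω → Set Ω, (∀ γ ∈ Γ, W γ ∈ 𝓝 γ) ∧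
    ∀ T : Finset Ω, (∀ γ ∈ T, γ ∈ Γ) → T.card = N + 1 → {v | v ∈ D ∧ ∀ γ ∈ T, v ∈ W γ}.Finite

/-- small clopen neighbourhoods of a point. -/
def cnb (γ : Ω) : Filter (Set Ω) := (𝓝 γ).smallSets ⊓ 𝓟 {W | IsClopen W ∧ γ ∈ W}

/-- a finitely additive function of clopen sets avoiding `q`, with values in separately continuous
kernels that vanish at `q` and factor through Hilbert space. -/
structure PhiData (q : Ω) (φ : Set Ω → Ω → Ω → ℂ) (C : ℝ) : Prop where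
  add : ∀ O O', IsClopen O → IsClopen O' → q ∉ O → q ∉ O' → Disjoint O O' →
    ∀ u v, φ (O ∪ O') u v = φ O u v + φ O' u v
  g2 : ∀ (Λ : Type) (s : Finset Λ) (O : Λ → Set Ω) (θ : Λ → ℂ),
    (∀ c, IsClopen (O c) ∧ q ∉ O c) → Pairwise (fun c c' => Disjoint (O c) (O c')) →
    (∀ c, ‖θ c‖ ≤ 1) → G2 (fun u v => ∑ c ∈ s, θ c * φ (O c) u v) C
  cont1 : ∀ O, IsClopen O → q ∉ O → ∀ v, Continuous fun u => φ O u v
  cont2 : ∀ O, IsClopen O → q ∉ O → ∀ u, Continuous fun v => φ O u v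
  van1 : ∀ O, IsClopen O → q ∉ O → ∀ v, φ O q v = 0
  van2 : ∀ O, IsClopen O → q ∉ O → ∀ u, φ O u q = 0

/-- `N γ u v` is the mass that `φ · u v` puts on the point `γ`, computed along `𝒜 γ`. -/
def IsAtom (φ : Set Ω → Ω → Ω → ℂ) (𝒜 : Ω → Ultrafilter (Set Ω)) (Γ : Set Ω)
    (N : Ω → Ω → Ω → ℂ) : Prop :=
  ∀ γ ∈ Γ, ∀ u v, Tendsto (fun W => φ W u v) (𝒜 γ) (𝓝 (N γ u v))

/-- the scalar data of `RData`, linear in every function argument. -/
structure RData' [CompactSpace Ω] (n : ℕ) (R : List C(Ω, ℂ) → Ω → List Ω → ℂ) (C : ℝ) : Prop where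
  base : RData n R C
  lin : ∀ (l₁ l₂ : List C(Ω, ℂ)) (f g : C(Ω, ℂ)) (c : ℂ), l₁.length + l₂.length + 1 = n →
    ∀ p l, R (l₁ ++ (f + c • g) :: l₂) p l = R (l₁ ++ f :: l₂) p l + c * R (l₁ ++ g :: l₂) p l

/-- the numbers attached to `n` disjoint clopen sets avoiding `q` and `n` points. -/
structure AData (n : ℕ) (q : Ω) (a : Fin n → (Fin n → Set Ω) → (Fin n → Ω) → ℂ) (C : ℝ) :
    Prop where
  sum : ∀ (O : Fin n → Set Ω) (γ : Fin n → Ω), (∀ k, IsClopen (O k) ∧ q ∉ O k ∧ γ k ∈ O k) →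
    Pairwise (fun k k' => Disjoint (O k) (O k')) → ∑ i, a i O γ = 1
  phi : ∀ (i : Fin n) (O : Fin n → Set Ω) (γ : Fin n → Ω),
    (∀ k, k ≠ i → IsClopen (O k) ∧ q ∉ O k) →
    (∀ k k', k ≠ i → k' ≠ i → k ≠ k' → Disjoint (O k) (O k')) →
    ∃ φ, PhiData q φ C ∧ ∀ W, IsClopen W → q ∉ W → (∀ k, k ≠ i → Disjoint W (O k)) →
      ∀ g, a i (Function.update O i W) (Function.update γ i g) = φ W g g
  g2 : ∀ (L : ℕ) (W : Fin L → Set Ω) (γ : Fin L → Ω), (∀ s, IsClopen (W s) ∧ q ∉ W s) →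
    Pairwise (fun s s' => Disjoint (W s) (W s')) →
    ∃ b : Fin n → (Fin n → Fin L) → ℂ,
      (∀ i s, Function.Injective s → b i s = a i (W ∘ s) (γ ∘ s)) ∧
      ∀ i k l s, k ≠ l →
        G2 (fun x y : Fin L => b i (Function.update (Function.update s k x) l y)) C

end Pool.Agent.MP_75da70_an.H8
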