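import Pool.Agent.MP_75da70_an.H8.GDefs
import Pool.Agent.MP_75da70_an.H8.FDefs
import Pool.Agent.MP_75da70_an.H8.IDefs
import Pool.Agent.MP_75da70_an.H7.Bridge

/-
Modules over an algebra of continuous functions attached to a bounded neighbourhood assignment.
-/

namespace Pool.Agent.MP_75da70_an.H8

open Filter Topology Set H7
open scoped ENNReal

section Lp

variable {A I E : Type} [NormedAddCommGroup A] [NormedSpace ℂ A] [NormedAddCommGroup E]
  [NormedSpace ℂ E]

/-- bounded families. -/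
def Linf (I E : Type) [NormedAddCommGroup E] : Type := lp (fun _ : I => E) ∞

namespace Linf

noncomputable instance : NormedAddCommGroup (Linf I E) :=
  inferInstanceAs (NormedAddCommGroup (lp (fun _ : I => E) ∞))

noncomputable instance : NormedSpace ℂ (Linf I E) :=
  inferInstanceAs (NormedSpace ℂ (lp (fun _ : I => E) ∞))

instance [CompleteSpace E] : CompleteSpace (Linf I E) :=
  inferInstanceAs (CompleteSpace (lp (fun _ : I => E) ∞))

omit [NormedSpace ℂ E]

/-- the coordinates. -/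
def val (u : Linf I E) (i : I) : E := (show lp (fun _ : I => E) ∞ from u) i

instance : CoeFun (Linf I E) fun _ => I → E := ⟨val⟩

@[ext] theorem ext {u v : Linf I E} (h : ∀ i, u i = v i) : u = v := lp.ext (funext h)

@[simp] theorem add_val (u v : Linf I E) (i : I) : (u + v) i = u i + v i := rfl
@[simp] theorem sub_val (u v : Linf I E) (i : I) : (u - v) i = u i - v i := rfl
@[simp] theorem neg_val (u : Linf I E) (i : I) : (-u) i = -u i := rfl
@[simp] theorem zero_val (i : I) : (0 : Linf I E) i = 0 := rfl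
@[simp] theorem smul_val [NormedSpace ℂ E] (c : ℂ) (u : Linf I E) (i : I) :
    (c • u) i = c • u i := rfl

@[simp] theorem sum_val {κ : Type*} (s : Finset κ) (u : κ → Linf I E) (i : I) :
    (∑ k ∈ s, u k) i = ∑ k ∈ s, u k i := by
  classical
  induction s using Finset.induction_on with
  | empty => rfl
  | insert a s ha ih => rw [Finset.sum_insert ha, Finset.sum_insert ha, add_val, ih]

theorem norm_val_le (u : Linf I E) (i : I) : ‖u i‖ ≤ ‖u‖ :=
  lp.norm_apply_le_norm ENNReal.top_ne_zero (show lp (fun _ : I => E) ∞ from u) i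

theorem norm_le {u : Linf I E} {C : ℝ} (hC : 0 ≤ C) (h : ∀ i, ‖u i‖ ≤ C) : ‖u‖ ≤ C :=
  lp.norm_le_of_forall_le (f := show lp (fun _ : I => E) ∞ from u) hC h

/-- a bounded family from its coordinates. -/
def mk (f : I → E) (C : ℝ) (h : ∀ i, ‖f i‖ ≤ C) : Linf I E :=
  (⟨f, memℓp_infty ⟨C, by rintro _ ⟨i, rfl⟩; exact h i⟩⟩ : lp (fun _ : I => E) ∞)

@[simp] theorem mk_val (f : I → E) (C : ℝ) (h : ∀ i, ‖f i‖ ≤ C) (i : I) : mk f C h i = f i := rfl

open Classical in
/-- the family with one nonzero coordinate. -/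
noncomputable def single (i : I) (e : E) : Linf I E :=
  mk (fun k => if k = i then e else 0) ‖e‖ fun k => by split_ifs <;> simp

@[simp] theorem single_self (i : I) (e : E) : single i e i = e := by simp [single]

theorem single_ne {i k : I} (h : k ≠ i) (e : E) : single i e k = 0 := by simp [single, h]

end Linf

theorem lpOp_bound (o : I → A →L[ℂ] E →L[ℂ] E) (h : ∀ i, ‖o i‖ ≤ 1) (a : A) (u : Linf I E)
    (i : I) : ‖o i a (u i)‖ ≤ 1 * ‖a‖ * ‖u‖ :=
  ((o i).le_opNorm₂ a (u i)).trans (by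
    have := u.norm_val_le i
    gcongr
    exact h i)

/-- coordinatewise operators on bounded families. -/
noncomputable def lpOp (o : I → A →L[ℂ] E →L[ℂ] E) (h : ∀ i, ‖o i‖ ≤ 1) :
    A →L[ℂ] Linf I E →L[ℂ] Linf I E :=
  (LinearMap.mk₂ ℂ (fun a (u : Linf I E) => Linf.mk (fun i => o i a (u i)) _ (lpOp_bound o h a u))
    (fun _ _ _ => Linf.ext fun i => by simp) (fun _ _ _ => Linf.ext fun i => by simp)
    (fun _ _ _ => Linf.ext fun i => by simp)
    (fun _ _ _ => Linf.ext fun i => by simp)).mkContinuous₂ 1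
    fun a u => Linf.norm_le (by positivity) (lpOp_bound o h a u)

@[simp] theorem lpOp_apply (o : I → A →L[ℂ] E →L[ℂ] E) (h : ∀ i, ‖o i‖ ≤ 1) (a : A)
    (u : Linf I E) (i : I) : lpOp o h a u i = o i a (u i) := rfl

/-- a coordinate. -/
noncomputable def lpEv (i : I) : Linf I E →L[ℂ] E :=
  LinearMap.mkContinuous
    { toFun := fun u => u i
      map_add' := fun _ _ => rfl
      map_smul' := fun _ _ => rfl } 1
    fun u => by rw [one_mul]; exact u.norm_val_le i

@[simp] theorem lpEv_apply (i : I) (u : Linf I E) : lpEv i u = u i := rfl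

variable (I E) in
/-- families that tend to zero. -/
def c0S : Submodule ℂ (Linf I E) where
  carrier := {u | Tendsto (fun i => u i) cofinite (𝓝 0)}
  add_mem' := fun {u v} hu hv => by simpa using hu.add hv
  zero_mem' := by simpa using tendsto_const_nhds
  smul_mem' := fun c u hu => by simpa using hu.const_smul c

theorem mem_c0S {u : Linf I E} : u ∈ c0S I E ↔ Tendsto (fun i => u i) cofinite (𝓝 0) := Iff.rfl

theorem isClosed_c0S : IsClosed (c0S I E : Set (Linf I E)) := by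
  refine isClosed_of_closure_subset fun u hu => mem_c0S.mpr ?_
  rw [Metric.tendsto_nhds]
  intro ε hε
  obtain ⟨v, hv, hd⟩ := Metric.mem_closure_iff.mp hu (ε / 2) (by positivity)
  filter_upwards [Metric.tendsto_nhds.mp (mem_c0S.mp hv) (ε / 2) (by positivity)] with i hi
  rw [dist_zero_right] at hi ⊢
  rw [dist_eq_norm] at hd
  have h1 : ‖(u - v) i‖ ≤ ‖u - v‖ := (u - v).norm_val_le i
  have h2 : u i = (u - v) i + v i := by simp
  rw [h2]
  exact (norm_add_le _ _).trans_lt (by linarith)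

theorem lpOp_mem_c0S (o : I → A →L[ℂ] E →L[ℂ] E) (h : ∀ i, ‖o i‖ ≤ 1) (a : A) {u : Linf I E}
    (hu : u ∈ c0S I E) : lpOp o h a u ∈ c0S I E := by
  rw [mem_c0S, tendsto_zero_iff_norm_tendsto_zero] at hu ⊢
  refine squeeze_zero (fun _ => norm_nonneg _) (fun i => ?_) (by simpa using hu.const_mul ‖a‖)
  refine ((o i).le_opNorm₂ a (u i)).trans (mul_le_mul_of_nonneg_right ?_ (norm_nonneg _))
  exact mul_le_of_le_one_left (norm_nonneg _) (h i)

end Lp

variable {Ω : Type} [TopologicalSpace Ω]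

open Classical in
/-- the indicator function of a clopen set. -/
noncomputable def ind (S : Set Ω) : C(Ω, ℂ) :=
  if h : IsClopen S then ⟨S.indicator 1, h.continuous_indicator continuous_const⟩ else 0

theorem ind_of_mem {S : Set Ω} (h : IsClopen S) {x : Ω} (hx : x ∈ S) : ind S x = 1 := by
  simp [ind, h, hx]

theorem ind_of_notMem {S : Set Ω} {x : Ω} (hx : x ∉ S) : ind S x = 0 := by
  unfold ind; split_ifs <;> simp [hx]

variable [CompactSpace Ω]

theorem norm_ind_le (S : Set Ω) : ‖ind S‖ ≤ 1 := by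
  refine (ContinuousMap.norm_le _ zero_le_one).mpr fun x => ?_
  by_cases hx : x ∈ S
  · by_cases h : IsClopen S
    · simp [ind_of_mem h hx]
    · simp [ind, h]
  · simp [ind_of_notMem hx]

/-- multiplication by the value at a point. -/
noncomputable def ptOp (y : Ω) : C(Ω, ℂ) →L[ℂ] ℂ →L[ℂ] ℂ :=
  (ContinuousLinearMap.mul ℂ ℂ).comp (ContinuousMap.evalCLM ℂ y)

omit [CompactSpace Ω] in
@[simp] theorem ptOp_apply (y : Ω) (a : C(Ω, ℂ)) (z : ℂ) : ptOp y a z = a y * z := rfl

theorem norm_ptOp (y : Ω) : ‖ptOp y‖ ≤ 1 :=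
  ContinuousLinearMap.opNorm_le_bound₂ _ zero_le_one fun a z => by
    rw [ptOp_apply, norm_mul, one_mul]
    exact mul_le_mul_of_nonneg_right (a.norm_coe_le_norm y) (norm_nonneg _)

variable (Ω) in
/-- all bounded functions on `Ω`. -/
@[reducible] noncomputable def LX : LM C(Ω, ℂ) where
  carrier := Linf Ω ℂ
  op := lpOp ptOp norm_ptOp
  ax := fun a b u => Linf.ext fun i => by simp [mul_assoc]

omit [TopologicalSpace Ω] [CompactSpace Ω] in
/-- functions on `Ω` that tend to zero and vanish off `B`. -/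
noncomputable def c0B (B : Set Ω) : Submodule ℂ (Linf Ω ℂ) := c0S Ω ℂ ⊓ ⨅ x ∈ Bᶜ, (lpEv (E := ℂ) x).ker

omit [TopologicalSpace Ω] [CompactSpace Ω] in
theorem mem_c0B {B : Set Ω} {u : Linf Ω ℂ} :
    u ∈ c0B B ↔ Tendsto (fun i => u i) cofinite (𝓝 0) ∧ ∀ x, x ∉ B → u x = 0 := by
  simp [c0B, mem_c0S]

@[reducible] noncomputable def C0 (B : Set Ω) : LM C(Ω, ℂ) :=
  (LX Ω).sub (c0B B)
    (by
      have : ((c0B B : Submodule ℂ (Linf Ω ℂ)) : Set (Linf Ω ℂ)) =
          (c0S Ω ℂ : Set (Linf Ω ℂ)) ∩ ⋂ x ∈ Bᶜ, ((lpEv (E := ℂ) x).ker : Set (Linf Ω ℂ)) := by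
        simp [c0B]
      rw [this]
      exact isClosed_c0S.inter (isClosed_biInter fun x _ => (lpEv x).isClosed_ker))
    fun a u hu => ⟨lpOp_mem_c0S _ norm_ptOp a hu.1, by
      have := (mem_c0B.mp hu).2
      simp only [Submodule.coe_iInf, mem_iInter, SetLike.mem_coe, LinearMap.mem_ker,
        ContinuousLinearMap.coe_coe, lpEv_apply, lpOp_apply, ptOp_apply]
      intro x hx
      rw [this x hx, mul_zero]⟩

variable (Ω) in
/-- bounded families of continuous functions. -/
@[reducible] noncomputable def LF (I : Type) : LM C(Ω, ℂ) where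
  carrier := Linf I C(Ω, ℂ)
  op := lpOp (fun _ => ContinuousLinearMap.mul ℂ C(Ω, ℂ))
    fun _ => ContinuousLinearMap.opNorm_mul_le ℂ C(Ω, ℂ)
  ax := fun a b u => Linf.ext fun i => by simp [mul_assoc]

/-- the value of the coordinate `i` at the point `x`. -/
noncomputable def evF {I : Type} (i : I) (x : Ω) : Linf I C(Ω, ℂ) →L[ℂ] ℂ :=
  (ContinuousMap.evalCLM ℂ x).comp (lpEv i)

@[simp] theorem evF_apply {I : Type} (i : I) (x : Ω) (u : Linf I C(Ω, ℂ)) : evF i x u = u i x := rfl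

/-- families that tend to zero, the coordinate `i` vanishing off `U i`. -/
noncomputable def pmS {I : Type} (U : I → Set Ω) : Submodule ℂ (Linf I C(Ω, ℂ)) :=
  c0S I C(Ω, ℂ) ⊓ ⨅ i, ⨅ x ∈ (U i)ᶜ, (evF i x).ker

theorem mem_pmS {I : Type} {U : I → Set Ω} {u : Linf I C(Ω, ℂ)} :
    u ∈ pmS U ↔ Tendsto (fun i => u i) cofinite (𝓝 0) ∧ ∀ i x, x ∉ U i → u i x = 0 := by
  simp [pmS, mem_c0S]

theorem isClosed_pmS {I : Type} (U : I → Set Ω) : IsClosed (pmS U : Set (Linf I C(Ω, ℂ))) := by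
  have : ((pmS U : Submodule ℂ _) : Set (Linf I C(Ω, ℂ))) =
      (c0S I C(Ω, ℂ) : Set (Linf I C(Ω, ℂ))) ∩
        ⋂ i, ⋂ x ∈ (U i)ᶜ, ((evF i x).ker : Set (Linf I C(Ω, ℂ))) := by simp [pmS]
  rw [this]
  exact isClosed_c0S.inter (isClosed_iInter fun i => isClosed_biInter fun x _ =>
    (evF i x).isClosed_ker)

theorem op_mem_pmS {I : Type} (U : I → Set Ω) (a : C(Ω, ℂ)) (u : Linf I C(Ω, ℂ))
    (hu : u ∈ pmS U) : (LF Ω I).op a u ∈ pmS U :=
  mem_pmS.mpr ⟨lpOp_mem_c0S _ (fun _ => ContinuousLinearMap.opNorm_mul_le ℂ C(Ω, ℂ)) a hu.1,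
    fun i x hx => by simp [(mem_pmS.mp hu).2 i x hx]⟩

/-- the sum of the modules `C(U i)`. -/
@[reducible] noncomputable def PM {I : Type} (U : I → Set Ω) : LM C(Ω, ℂ) :=
  (LF Ω I).sub (pmS U) (isClosed_pmS U) (op_mem_pmS U)

/-- the generator with index `i`. -/
noncomputable def eP {I : Type} (U : I → Set Ω) (i : I) : (PM U).carrier :=
  ⟨Linf.single i (ind (U i)), mem_pmS.mpr ⟨by
    refine tendsto_const_nhds.congr' ?_
    filter_upwards [(finite_singleton i).compl_mem_cofinite] with k hk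
    rw [Linf.single_ne hk], fun k x hx => by
    by_cases h : k = i
    · subst h; rw [Linf.single_self]; exact ind_of_notMem hx
    · rw [Linf.single_ne h]; rfl⟩⟩

/-- a family of clopen sets of order at most `N`. -/
structure CF {I : Type} (U : I → Set Ω) (N : ℕ) : Prop where
  clopen : ∀ i, IsClopen (U i)
  ord : ∀ (x : Ω) (S : Finset I), (∀ i ∈ S, x ∈ U i) → S.card ≤ N

variable (Ω) in
/-- a transitive clopen neighbourhood assignment of bounded order. -/
structure PS : Type where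
  V : Ω → Set Ω
  rk : Ω → ℕ
  H : ℕ
  N : ℕ
  rs : RS V rk H
  trans : ∀ x y, y ∈ V x → V y ⊆ V x
  ord : OrdLe V N

namespace PS

variable (P : PS Ω)

def le (a b : Ω) : Prop := b ∈ P.V a

/-- a level of the rank function. -/
def L (j : ℕ) : Set Ω := {x | P.rk x = j}

omit [CompactSpace Ω] in
theorem pord : POrd P.le P.N where
  refl := P.rs.self
  trans := fun x y _ h1 h2 => P.trans x y h1 h2
  anti := fun x y h1 h2 => by
    by_contra hne
    have a := P.rs.lt x y h1 (Ne.symm hne)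
    have b := P.rs.lt y x h2 hne
    omega
  ord := P.ord

/-- a shrinking of the assignment. -/
def Shr (W : Ω → Set Ω) : Prop := ∀ q, IsClopen (W q) ∧ q ∈ W q ∧ W q ⊆ P.V q

/-- the clopen set attached to a chain. -/
def Uc (B : Set Ω) (k : ℕ) (c : List Ω) : Set Ω := {x | c ∈ Sx P.le B k x}

/-- the module of chains with `k + 1` entries. -/
@[reducible] noncomputable def PK (B : Set Ω) (k : ℕ) : LM C(Ω, ℂ) := PM (P.Uc B k)

omit [CompactSpace Ω] in
theorem finite_below (x : Ω) : {q | P.le q x}.Finite := by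
  by_contra h
  obtain ⟨S, hS, hc⟩ := Set.Infinite.exists_subset_card_eq h (P.N + 1)
  have := P.ord x S fun q hq => hS hq
  omega

omit [CompactSpace Ω] in
theorem IsCh.all_le {B : Set Ω} {x : Ω} : ∀ {h : Ω} {t : List Ω}, IsCh P.le B (h :: t) →
    P.le h x → ∀ q ∈ h :: t, P.le q x
  | h, [], _, hx, q, hq => by rw [List.mem_singleton.mp hq]; exact hx
  | h, y :: t, hc, hx, q, hq => by
    rcases List.mem_cons.mp hq with rfl | hq
    · exact hx
    · exact IsCh.all_le hc.2 (P.pord.trans _ _ _ hc.1.1 hx) q hq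

omit [CompactSpace Ω] in
theorem finite_Sx (B : Set Ω) (k : ℕ) (x : Ω) : (Sx P.le B k x).Finite := by
  have := (P.finite_below x).to_subtype
  refine ((List.finite_length_eq {q | P.le q x} (k + 1)).image (List.map Subtype.val)).subset ?_
  rintro c ⟨hc, hl, h, t, rfl, hx⟩
  refine ⟨(h :: t).attachWith _ (IsCh.all_le P hc hx), ?_, ?_⟩
  · exact List.length_attachWith.trans hl
  · exact List.unattach_attachWith

/-- the fibre of a family at a point. -/
noncomputable def fib (B : Set Ω) (k : ℕ) (x : Ω) : Linf (List Ω) C(Ω, ℂ) →ₗ[ℂ] FL Ω :=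
  ∑ c ∈ (P.finite_Sx B k x).toFinset, (Finsupp.lsingle c).comp (evF c x).toLinearMap

open Classical in
theorem fib_apply (B : Set Ω) (k : ℕ) (x : Ω) (u : Linf (List Ω) C(Ω, ℂ)) (c : List Ω) :
    P.fib B k x u c = if c ∈ Sx P.le B k x then u c x else 0 := by
  simp only [fib, LinearMap.sum_apply, LinearMap.comp_apply, Finsupp.lsingle_apply,
    Finsupp.finsetSum_apply, Finsupp.single_apply, Finset.sum_ite_eq', Finite.mem_toFinset]
  rfl

theorem fib_op (B : Set Ω) (k : ℕ) (x : Ω) (a : C(Ω, ℂ)) (u : Linf (List Ω) C(Ω, ℂ)) :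
    P.fib B k x ((LF Ω (List Ω)).op a u) = a x • P.fib B k x u := by
  ext c
  simp only [fib_apply, Finsupp.smul_apply, smul_eq_mul]
  split_ifs <;> simp

theorem continuous_fib (B : Set Ω) (k : ℕ) (x : Ω) (φ : FL Ω →ₗ[ℂ] ℂ) :
    Continuous fun u => φ (P.fib B k x u) := by
  simp only [fib, LinearMap.sum_apply, LinearMap.comp_apply, Finsupp.lsingle_apply, map_sum]
  refine continuous_finsetSum _ fun c _ => ?_
  have : ∀ u : Linf (List Ω) C(Ω, ℂ), φ (Finsupp.single c ((evF c x).toLinearMap u)) =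
      evF c x u * φ (Finsupp.single c 1) := fun u => by
    rw [← smul_eq_mul, ← map_smul, Finsupp.smul_single, smul_eq_mul, mul_one]; rfl
  simp only [this]
  exact (evF c x).continuous.mul continuous_const

/-- families of chains that are cycles in every fibre. -/
noncomputable def zS (B : Set Ω) (k : ℕ) : Submodule ℂ (Linf (List Ω) C(Ω, ℂ)) :=
  pmS (P.Uc B k) ⊓ ⨅ x, (Zf P.le B k x).comap (P.fib B k x)

theorem mem_zS {B : Set Ω} {k : ℕ} {u : Linf (List Ω) C(Ω, ℂ)} :
    u ∈ P.zS B k ↔ u ∈ pmS (P.Uc B k) ∧ ∀ x, P.fib B k x u ∈ Zf P.le B k x := by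
  simp [zS]

theorem isClosed_zS (B : Set Ω) (k : ℕ) : IsClosed (P.zS B k : Set (Linf (List Ω) C(Ω, ℂ))) := by
  have : (P.zS B k : Set (Linf (List Ω) C(Ω, ℂ))) =
      (pmS (P.Uc B k) : Set (Linf (List Ω) C(Ω, ℂ))) ∩
      ⋂ x, ((⋂ c ∈ (So P.le B k x)ᶜ, {u | Finsupp.lapply (R := ℂ) c (P.fib B k x u) = 0}) ∩
        ⋂ c, {u | ((Finsupp.lapply (R := ℂ) c).comp dF) (P.fib B k x u) = 0}) := by
    ext u
    simp only [SetLike.mem_coe, mem_zS, Zf, Submodule.mem_inf, Finsupp.mem_supported',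
      LinearMap.mem_ker, mem_inter_iff, mem_iInter, mem_compl_iff, mem_ofPred_eq,
      Finsupp.lapply_apply, LinearMap.comp_apply, Finsupp.ext_iff, Finsupp.coe_zero, Pi.zero_apply]
  rw [this]
  exact (isClosed_pmS _).inter (isClosed_iInter fun x => (isClosed_biInter fun c _ =>
    isClosed_eq (P.continuous_fib B k x _) continuous_const).inter (isClosed_iInter fun c =>
      isClosed_eq (P.continuous_fib B k x _) continuous_const))

/-- the module of cycles. -/
@[reducible] noncomputable def ZK (B : Set Ω) (k : ℕ) : LM C(Ω, ℂ) :=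
  (LF Ω (List Ω)).sub (P.zS B k) (P.isClosed_zS B k) fun a u hu =>
    P.mem_zS.mpr ⟨op_mem_pmS _ a u (P.mem_zS.mp hu).1, fun x => by
      rw [P.fib_op]; exact Submodule.smul_mem _ _ ((P.mem_zS.mp hu).2 x)⟩

/-- the inclusion of the cycles. -/
noncomputable def jK (B : Set Ω) (k : ℕ) : (P.ZK B k).carrier →L[ℂ] (P.PK B k).carrier :=
  (P.zS B k).subtypeL.codRestrict (pmS (P.Uc B k)) fun u => (P.mem_zS.mp u.2).1

@[simp] theorem jK_val (B : Set Ω) (k : ℕ) (u : (P.ZK B k).carrier) :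
    (P.jK B k u : Linf (List Ω) C(Ω, ℂ)) = u := rfl

/-- the syzygies of `C0 B`. -/
@[reducible] noncomputable def Zs (B : Set Ω) : ℕ → LM C(Ω, ℂ)
  | 0 => C0 B
  | k + 1 => P.ZK B k

/-- functions that vanish at all points of rank at least `j`. -/
noncomputable def iS (j : ℕ) : Submodule ℂ C(Ω, ℂ) :=
  ⨅ x ∈ {x | j ≤ P.rk x}, (ContinuousMap.evalCLM ℂ x : C(Ω, ℂ) →L[ℂ] ℂ).ker

omit [CompactSpace Ω] in
theorem mem_iS {j : ℕ} {f : C(Ω, ℂ)} : f ∈ P.iS j ↔ ∀ x, j ≤ P.rk x → f x = 0 := by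
  simp [iS]

@[reducible] noncomputable def IK (j : ℕ) : LM C(Ω, ℂ) :=
  (regL C(Ω, ℂ)).sub (P.iS j)
    (by
      have : ((P.iS j : Submodule ℂ _) : Set C(Ω, ℂ)) = ⋂ x ∈ {x | j ≤ P.rk x},
          (ContinuousMap.evalCLM ℂ x : C(Ω, ℂ) →L[ℂ] ℂ).ker := by simp [iS]
      rw [this]
      exact isClosed_biInter fun x _ => ContinuousLinearMap.isClosed_ker _)
    fun a f hf => P.mem_iS.mpr fun x hx => by simp [P.mem_iS.mp hf x hx]

end PS

end Pool.Agent.MP_75da70_an.H8
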