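import Pool.Agent.MP_75da70_an.H8.ThreeB
import Pool.Agent.MP_75da70_an.H31.NoConfig
import Pool.Agent.MP_75da70_an.H31.Struct

/-
The lower bound: a factorisation of the canonical morphism gives good fibre retractions.
-/

namespace Pool.Agent.MP_75da70_an.H8

open Filter Topology Set H7

variable {Ω : Type} [TopologicalSpace Ω] [CompactSpace Ω] [T2Space Ω]
  [TotallyDisconnectedSpace Ω]

namespace PS

variable {P : PS Ω} {B : Set Ω} {k : ℕ} {𝒰 : Ultrafilter Ω} {a b : ℕ}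
  {ch : Ω → Fin b → List Ω} {ζ w : Fin a → Fin b → ℂ}

variable (P B k ch ζ) in
/-- the enumeration of the chains below `x` is correct. -/
def Gx (x : Ω) : Prop := Function.Injective (ch x) ∧ range (ch x) = Sx P.le B k x ∧
  ∀ t, ∑ c, Finsupp.single (ch x c) (ζ t c) ∈ Zf P.le B k x

variable (P B k 𝒰 ch ζ w) in
def Lim0 : Prop := ∀ (Λ : Ω → Fin b → Fin b → ℂ) (M : ℝ), (∀ x c c', ‖Λ x c c'‖ ≤ M) →
  (∀ᶠ x in (𝒰 : Filter Ω), ∀ c, ∑ c', Finsupp.single (ch x c') (Λ x c c') ∈ Zf P.le B k x) →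
  (∀ η : ℝ, 0 < η → ∃ W : Ω → Set Ω, (∀ q, W q ∈ 𝓝 q) ∧ ∀ᶠ x in (𝒰 : Filter Ω),
    ∀ q, P.le q x → x ∈ W q → ∀ c c', ch x c ∈ Sx P.le B k q → ch x c' ∉ So P.le B k q →
      ‖Λ x c c'‖ ≤ η) →
  Tendsto (fun x => ∑ t, ∑ c, ∑ c', w t c' * ζ t c * Λ x c c') 𝒰 (𝓝 0)

omit [CompactSpace Ω] [T2Space Ω] [TotallyDisconnectedSpace Ω] in
theorem Gx.sum_apply {x : Ω} (h : P.Gx B k ch ζ x) (f : Fin b → ℂ) (c : Fin b) :
    (∑ c', Finsupp.single (ch x c') (f c') : FL Ω) (ch x c) = f c := by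
  classical
  simp [Finsupp.finsetSum_apply, Finsupp.single_apply, h.1.eq_iff]

omit [CompactSpace Ω] [T2Space Ω] [TotallyDisconnectedSpace Ω] in
open Classical in
theorem Gx.sum_eq {x : Ω} (h : P.Gx B k ch ζ x) (f : List Ω → ℂ) (u : FL Ω)
    (hu : ∀ c, u c = if c ∈ Sx P.le B k x then f c else 0) :
    ∑ c', Finsupp.single (ch x c') (f (ch x c')) = u := by
  ext c
  rw [hu, ← h.2.1]
  split_ifs with hc
  · obtain ⟨c, rfl⟩ := hc
    exact h.sum_apply (fun c' => f (ch x c')) c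
  · rw [Finsupp.finsetSum_apply]
    exact Finset.sum_eq_zero fun c' _ => Finsupp.single_eq_of_ne fun e => hc ⟨c', e.symm⟩

theorem side1 (hG : ∀ᶠ x in (𝒰 : Filter Ω), P.Gx B k ch ζ x) (hL : P.Lim0 B k 𝒰 ch ζ w)
    (F : List Ω → (P.ZK B k).carrier) (M : ℝ) (hM : ∀ c, ‖F c‖ ≤ M) :
    Tendsto (fun x => ∑ t, ∑ c, ∑ c', w t c' * ζ t c * (F (ch x c)).1 (ch x c') x) 𝒰 (𝓝 0) := by
  refine hL (fun x c c' => (F (ch x c)).1 (ch x c') x) M
    (fun x c c' => (norm_coord_le _ _ _).trans (hM _)) (hG.mono fun x hx c => ?_) fun η hη => ?_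
  · rw [hx.sum_eq (fun c' => (F (ch x c)).1 c' x) _ (P.fib_apply B k x _)]
    exact (P.mem_zS.mp (F (ch x c)).2).2 x
  · refine ⟨fun q => ⋂ c ∈ Sx P.le B k q, {x | ∀ c', c' ∉ So P.le B k q → ‖(F c).1 c' x‖ ≤ η},
      fun q => (biInter_mem (P.finite_Sx B k q)).mpr fun c _ => z_near (F c).2 q hη,
      Eventually.of_forall fun x q _ hx c c' hc hc' => ?_⟩
    exact mem_iInter₂.mp hx _ hc _ hc'

omit [T2Space Ω] [TotallyDisconnectedSpace Ω] in
theorem side2 (hG : ∀ᶠ x in (𝒰 : Filter Ω), P.Gx B k ch ζ x) (hL : P.Lim0 B k 𝒰 ch ζ w)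
    (T : List Ω → Linf Ω ℂ →L[ℂ] P.ET B k) (M : ℝ) (hM : ∀ c y, ‖T c (dlt y)‖ ≤ M) :
    Tendsto (fun y => ∑ t, ∑ c, ∑ c', w t c' * ζ t c *
      ET.valL (T (ch y c) (dlt y)) (y, ch y c')) 𝒰 (𝓝 0) := by
  refine hL (fun y c c' => ET.valL (T (ch y c) (dlt y)) (y, ch y c')) M
    (fun y c c' => (Linf.norm_val_le _ _).trans (hM _ _)) (hG.mono fun y hy c => ?_)
    fun η hη => ?_
  · rw [hy.sum_eq (fun c' => ET.valL (T (ch y c) (dlt y)) (y, c')) _ (P.fibE_apply B k y _)]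
    exact ((P.mem_eS B k).mp (ET.mem _)).2 y
  · refine ⟨fun q => ⋂ c ∈ Sx P.le B k q, {y | ∀ c' : {c' // c' ∉ So P.le B k q},
      ‖ET.valL (T c (dlt y)) (y, c'.1)‖ ≤ η},
      fun q => (biInter_mem (P.finite_Sx B k q)).mpr fun c _ => ?_,
      Eventually.of_forall fun x q _ hx c c' hc hc' => mem_iInter₂.mp hx _ hc ⟨_, hc'⟩⟩
    refine P.phillips (fun y (c' : {c' // c' ∉ So P.le B k q}) =>
      (lpEv (y, c'.1)).comp (ET.valL.comp (T c))) q (fun ξ η hη => ?_) hη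
    filter_upwards [((P.mem_eS B k).mp (ET.mem (T c ξ))).1 q η hη] with y hy c'
    exact hy c'.1 c'.2

variable (P B k)

instance completeSpace_zS : CompleteSpace (P.zS B k) := (P.ZK B k).cpl

noncomputable def evZ (c : List Ω) (x : Ω) : (P.ZK B k).carrier →L[ℂ] ℂ :=
  (evF c x).comp (P.zS B k).subtypeL

noncomputable def evE (y : Ω) (c : List Ω) : P.ET B k →L[ℂ] ℂ := (lpEv (y, c)).comp ET.valL

noncomputable def evY (x : Ω) (c : List Ω) (y : Ω) (d : List Ω) :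
    PT (P.ZK B k).carrier (P.ET B k) →L[ℂ] ℂ := evT2 (P.evZ B k c x) (P.evE B k y d)

noncomputable def sl1 (y : Ω) (d : List Ω) :
    PT (P.ZK B k).carrier (P.ET B k) →L[ℂ] (P.ZK B k).carrier :=
  PT.lift ((ContinuousLinearMap.lsmul ℂ ℂ).comp (P.evE B k y d)).flip

noncomputable def sl2 (x : Ω) (c : List Ω) : PT (P.ZK B k).carrier (P.ET B k) →L[ℂ] P.ET B k :=
  PT.lift ((ContinuousLinearMap.lsmul ℂ ℂ).comp (P.evZ B k c x))

omit [T2Space Ω] [TotallyDisconnectedSpace Ω] in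
theorem evY_sl1 (x c y d t) : P.evY B k x c y d t = (P.sl1 B k y d t).1 c x :=
  pt_ext (P.evY B k x c y d) ((P.evZ B k c x).comp (P.sl1 B k y d)) (fun z e => by
    simp only [evY, sl1, evT2_tm, ContinuousLinearMap.comp_apply, PT.lift_tm,
      ContinuousLinearMap.flip_apply, ContinuousLinearMap.lsmul_apply, map_smul, smul_eq_mul]
    ring) t

omit [T2Space Ω] [TotallyDisconnectedSpace Ω] in
theorem evY_sl2 (x c y d t) : P.evY B k x c y d t = ET.valL (P.sl2 B k x c t) (y, d) :=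
  pt_ext (P.evY B k x c y d) ((P.evE B k y d).comp (P.sl2 B k x c)) (fun z e => by
    simp only [evY, sl2, evT2_tm, ContinuousLinearMap.comp_apply, PT.lift_tm,
      ContinuousLinearMap.lsmul_apply, map_smul, smul_eq_mul]) t

omit [T2Space Ω] [TotallyDisconnectedSpace Ω] in
theorem evY_op (x c y d) (f : C(Ω, ℂ)) (t) :
    P.evY B k x c y d ((P.YT B k).op f t) = f x * P.evY B k x c y d t :=
  pt_ext ((P.evY B k x c y d).comp ((P.YT B k).op f)) (f x • P.evY B k x c y d) (fun z e => by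
    simp only [evY, ContinuousLinearMap.comp_apply, lact_tm, evT2_tm, smul_apply, smul_eq_mul]
    rw [← mul_assoc]; rfl) t

omit [T2Space Ω] [TotallyDisconnectedSpace Ω] in
theorem g2_evY (c d : Ω → List Ω) (t) : G2 (fun x y => P.evY B k x (c x) y (d y) t) ‖t‖ :=
  g2_pt (fun x => P.evZ B k (c x) x) (fun y => P.evE B k y (d y))
    (fun _ z => norm_coord_le z.1 _ _) (fun _ e => (ET.valL e).norm_val_le _) t

variable {P B k}

theorem exists_zt (P : PS Ω) (B : Set Ω) (k : ℕ) (ch : Ω → Fin b → List Ω)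
    (ζ : Fin a → Fin b → ℂ) : ∃ (z : Fin a → Ω → (P.ZK B k).carrier) (K : ℝ), 0 < K ∧
      (∀ t (S : Finset Ω) (θ : Ω → ℂ), (∀ c, ‖θ c‖ ≤ 1) → ‖∑ c ∈ S, θ c • z t c‖ ≤ K) ∧
      ∀ t x, P.Gx B k ch ζ x → (∀ c, (z t x).1 (ch x c) x = ζ t c) ∧
        P.jK B k (z t x) = (P.PK B k).op (ind (P.V x)) (∑ c, ζ t c • eP (P.Uc B k) (ch x c)) := by
  classical
  let K : ℝ := ∑ t, ∑ c, ‖ζ t c‖
  have hK : 0 ≤ K := by positivity
  have h1 : ∀ t x, ∃ z : (P.ZK B k).carrier, (∀ c y, y ∉ P.V x → z.1 c y = 0) ∧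
      (∀ c y, ‖z.1 c y‖ ≤ K) ∧ (P.Gx B k ch ζ x → ∀ c y, z.1 c y =
        ind (P.V x) y * (∑ c', Finsupp.single (ch x c') (ζ t c') : FL Ω) c) := fun t x => by
    by_cases hx : P.Gx B k ch ζ x
    · obtain ⟨u, h1, -, h2⟩ := P.exists_const B k (P.rs.clopen x) Subset.rfl
        (∑ c', Finsupp.single (ch x c') (ζ t c'))
      refine ⟨⟨u, h2 (hx.2.2 t)⟩, fun c y hy => by simp [h1, ind_of_notMem hy], fun c y => ?_,
        fun _ => h1⟩
      change ‖u c y‖ ≤ K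
      rw [h1, norm_mul]
      refine (mul_le_of_le_one_left (norm_nonneg _)
        (((ind (P.V x)).norm_coe_le_norm y).trans (norm_ind_le _))).trans ?_
      rw [Finsupp.finsetSum_apply]
      refine (norm_sum_le _ _).trans (le_trans (Finset.sum_le_sum fun c' _ => ?_)
        (Finset.single_le_sum (f := fun t => ∑ c, ‖ζ t c‖) (fun _ _ => by positivity)
          (Finset.mem_univ t)))
      rw [Finsupp.single_apply]
      split_ifs <;> simp
    · exact ⟨0, fun _ _ _ => rfl, fun _ _ => by simpa using hK, fun h => absurd h hx⟩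
  choose z h2 h3 h4 using h1
  refine ⟨z, P.N * K + 1, by positivity, fun t S θ hθ => ?_, fun t x hx => ⟨fun c => ?_, ?_⟩⟩
  · have := norm_sum_le_of_cf (U := P.V) ⟨P.rs.clopen, P.ord⟩ (fun x => (z t x).1)
      (fun x c y => h2 t x c y) hK (h3 t) S θ hθ
    have e : ((∑ c ∈ S, θ c • z t c : (P.ZK B k).carrier) : Linf (List Ω) C(Ω, ℂ)) =
        ∑ c ∈ S, θ c • (z t c).1 := by simp
    rw [← e] at this
    exact le_trans this (by linarith)
  · rw [h4 t x hx, ind_of_mem (P.rs.clopen x) (P.rs.self x), one_mul, hx.sum_apply]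
  · refine Subtype.ext (Linf.ext fun c => ContinuousMap.ext fun y => ?_)
    rw [jK_val, h4 t x hx]
    simp only [subOp_val, lpOp_apply, ContinuousLinearMap.mul_apply', ContinuousMap.mul_apply,
      AddSubmonoidClass.coe_finsetSum, SetLike.val_smul, Linf.sum_val, Linf.smul_val,
      ContinuousMap.sum_apply, ContinuousMap.smul_apply, Finsupp.finsetSum_apply, smul_eq_mul]
    by_cases hy : y ∈ P.V x
    · congr 1
      refine Finset.sum_congr rfl fun c' _ => ?_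
      by_cases hc : c = ch x c'
      · subst hc
        have : y ∈ P.Uc B k (ch x c') := Sx_mono P.pord hy (hx.2.1 ▸ mem_range_self c')
        simp [eP, ind_of_mem ((P.cf B k).clopen _) this]
      · simp [eP, Linf.single_ne hc, Finsupp.single_eq_of_ne hc]
    · simp [ind_of_notMem hy]

omit [T2Space Ω] [TotallyDisconnectedSpace Ω] in
theorem norm_eP {I : Type} (U : I → Set Ω) (i : I) : ‖eP U i‖ ≤ 1 := by
  refine Linf.norm_le zero_le_one fun c => ?_
  by_cases h : c = i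
  · subst h; simpa [eP] using norm_ind_le _
  · simp [eP, Linf.single_ne h]

omit [TopologicalSpace Ω] [CompactSpace Ω] [T2Space Ω] [TotallyDisconnectedSpace Ω] in
theorem norm_dlt (y : Ω) : ‖dlt y‖ ≤ 1 := by
  simpa using norm_sum_dlt {y} (fun _ => 1) (by simp)

end PS

theorem sum4_comm {α β : Type} [Fintype α] [Fintype β] (f : α → β → α → β → ℂ) :
    ∑ s, ∑ d, ∑ t, ∑ c, f s d t c = ∑ t, ∑ c, ∑ s, ∑ d, f s d t c := by
  have := Finset.sum_comm (s := (Finset.univ : Finset (α × β))) (t := (Finset.univ : Finset (α × β)))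
    (f := fun p q => f p.1 p.2 q.1 q.2)
  simpa only [Fintype.sum_prod_type] using this

theorem g2_trilinear {I J U V X : Type} [NormedAddCommGroup U] [NormedSpace ℂ U]
    [NormedAddCommGroup V] [NormedSpace ℂ V] [NormedAddCommGroup X] [NormedSpace ℂ X]
    {G : Type} [NormedAddCommGroup G] [NormedSpace ℂ G] (ev : I → J → G →L[ℂ] ℂ)
    (hev : ∀ t, G2 (fun i j => ev i j t) ‖t‖) (Λ : PT U V →L[ℂ] X →L[ℂ] G) (u : I → U) (v : J → V)
    (ξ : J → X) {K : ℝ} (hK : 0 < K)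
    (hu : ∀ (S : Finset I) (θ : I → ℂ), (∀ c, ‖θ c‖ ≤ 1) → ‖∑ c ∈ S, θ c • u c‖ ≤ K)
    (hv : ∀ (S : Finset J) (θ : J → ℂ), (∀ c, ‖θ c‖ ≤ 1) → ‖∑ c ∈ S, θ c • v c‖ ≤ K)
    (hξ : ∀ (S : Finset J) (θ : J → ℂ), (∀ c, ‖θ c‖ ≤ 1) → ‖∑ c ∈ S, θ c • ξ c‖ ≤ 1) :
    ∃ C, G2 (fun i j => ev i j (Λ (tm U V (u i) (v j)) (ξ j))) C := by
  have h0 : 0 ≤ ‖Λ‖ := ContinuousLinearMap.opNorm_nonneg _
  have h1 : ∀ e f, G2 (fun i j => ev i j (Λ (tm U V e f) (ξ j))) (‖Λ‖ * ‖e‖ * ‖f‖) := fun e f => by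
    have := g2_extract (fun i j => (ev i j).comp (Λ (tm U V e f))) (C := ‖Λ‖ * ‖e‖ * ‖f‖)
      (by positivity) one_pos (fun x => (hev _).mono ((Λ.le_opNorm₂ _ x).trans (by
        rw [mul_assoc ‖Λ‖ ‖e‖]
        exact mul_le_mul_of_nonneg_right (mul_le_mul_of_nonneg_left (norm_tm_le e f) h0)
          (norm_nonneg _)))) hξ (OneSide.col id)
    rwa [one_mul] at this
  have h2 : ∀ e, G2 (fun i j => ev i j (Λ (tm U V e (v j)) (ξ j))) (K * ‖Λ‖ * ‖e‖) := fun e => by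
    have := g2_extract (fun i j => (ev i j).comp ((Λ.flip (ξ j)).comp (tm U V e)))
      (C := ‖Λ‖ * ‖e‖) (by positivity) hK (h1 e) hv (OneSide.col id)
    rwa [← mul_assoc] at this
  exact ⟨_, g2_extract (fun i j => (ev i j).comp ((Λ.flip (ξ j)).comp ((tm U V).flip (v j))))
    (C := K * ‖Λ‖) (by positivity) hK h2 hu (OneSide.row id)⟩

theorem PS.good_of_factor (P : PS Ω) (B : Set Ω) (k : ℕ)
    (hfac : ∀ (Y : LM C(Ω, ℂ))
      (Φ : (TB (P.ZK B k) (P.ZK B k)).carrier →L[ℂ] (HomB (LX Ω) Y).carrier),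
      Mr (TB (P.ZK B k) (P.ZK B k)) (HomB (LX Ω) Y) Φ →
      ∃ (Λ₁ : (TB (P.PK B k) (P.ZK B k)).carrier →L[ℂ] (HomB (LX Ω) Y).carrier)
        (Λ₂ : (TB (P.ZK B k) (P.PK B k)).carrier →L[ℂ] (HomB (LX Ω) Y).carrier),
        Mr (TB (P.PK B k) (P.ZK B k)) (HomB (LX Ω) Y) Λ₁ ∧
        Mr (TB (P.ZK B k) (P.PK B k)) (HomB (LX Ω) Y) Λ₂ ∧
        ∀ z z', Λ₁ (tm _ _ (P.jK B k z) z') + Λ₂ (tm _ _ z (P.jK B k z')) = Φ (tm _ _ z z')) :
    ∃ W, P.Shr W ∧ ∀ x, ∃ ℓ, Good P.le B k x {q | x ∈ W q} ℓ := by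
  classical
  by_contra hcon
  have hbad : ∀ W : Ω → Set Ω, (∀ q, W q ∈ 𝓝 q) →
      ∃ x, ¬ ∃ ℓ, Good P.le B k x {q | P.le q x ∧ x ∈ W q} ℓ := by
    intro W hW
    choose W' h1 h2 h3 using fun q => struct_clopen_sub
      (inter_mem (hW q) ((P.rs.clopen q).isOpen.mem_nhds (P.rs.self q)))
    by_contra h
    push Not at h
    refine hcon ⟨W', fun q => ⟨h1 q, h2 q, fun y hy => (h3 q hy).2⟩, fun x => ?_⟩
    obtain ⟨ℓ, hℓ⟩ := h x
    exact ⟨ℓ, hℓ.mono fun q hq => ⟨(h3 q hq).2, (h3 q hq).1⟩⟩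
  obtain ⟨𝒰, a, b, ch, ζ, w, hG, hw, hL⟩ := bad_weights P.pord B k 𝓝 hbad
  change ∀ᶠ x in (𝒰 : Filter Ω), P.Gx B k ch ζ x at hG
  change P.Lim0 B k 𝒰 ch ζ w at hL
  obtain ⟨Λ₁, Λ₂, h1, h2, h12⟩ := hfac (P.YT B k) (P.Phi B k) (P.mr_Phi B k)
  obtain ⟨z, K, hK, hz, hz'⟩ := PS.exists_zt P B k ch ζ
  have hzn : ∀ t x, ‖z t x‖ ≤ K := fun t x => by simpa using hz t {x} (fun _ => 1) (by simp)
  let s₁ : Fin a → Fin b → Fin a → Fin b → Ω → Ω → ℂ := fun t c' s d' x y =>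
    P.evY B k x (ch x c') y (ch y d') (Λ₁ (tm _ _ (P.jK B k (z t x)) (z s y)) (dlt y))
  let s₂ : Fin a → Fin b → Fin a → Fin b → Ω → Ω → ℂ := fun t c' s d' x y =>
    P.evY B k x (ch x c') y (ch y d') (Λ₂ (tm _ _ (z t x) (P.jK B k (z s y))) (dlt y))
  let t₁ : Ω → Ω → ℂ := fun x y => ∑ t, ∑ c', ∑ s, ∑ d', w t c' * w s d' * s₁ t c' s d' x y
  let t₂ : Ω → Ω → ℂ := fun x y => ∑ t, ∑ c', ∑ s, ∑ d', w t c' * w s d' * s₂ t c' s d' x y
  have hs : ∀ t c' s d' x y, P.Gx B k ch ζ x → P.Gx B k ch ζ y →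
      s₁ t c' s d' x y + s₂ t c' s d' x y = ζ t c' * ζ s d' := fun t c' s d' x y hx hy => by
    simp only [s₁, s₂]
    rw [← map_add, ← add_apply, h12, PS.Phi_tm, PS.evY, evT2_tm]
    congr 1
    · exact (hz' t x hx).1 c'
    · change dlt y y * (z s y).1 (ch y d') y = _
      rw [(hz' s y hy).1 d', dlt, Linf.single_self, one_mul]
  have ht : ∀ x y, P.Gx B k ch ζ x → P.Gx B k ch ζ y → t₁ x y = 1 - t₂ x y := fun x y hx hy => by
    rw [eq_sub_iff_add_eq, ← one_mul (1 : ℂ)]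
    nth_rewrite 1 [← hw]
    nth_rewrite 1 [← hw]
    simp only [t₁, t₂, ← Finset.sum_add_distrib, Finset.sum_mul, Finset.mul_sum]
    refine Finset.sum_congr rfl fun t _ => Finset.sum_congr rfl fun c' _ =>
      Finset.sum_congr rfl fun s _ => Finset.sum_congr rfl fun d' _ => ?_
    rw [← mul_add, hs t c' s d' x y hx hy]
    ring
  obtain ⟨C, hC⟩ : ∃ C, G2 t₁ C := by
    choose C hC using fun t c' s d' => g2_trilinear
      (fun x y => P.evY B k x (ch x c') y (ch y d')) (P.g2_evY B k _ _) Λ₁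
      (fun x => P.jK B k (z t x)) (z s) dlt hK (fun S θ hθ => by
        have := hz t S θ hθ
        simp only [← map_smul, ← map_sum]
        exact this) (hz s) norm_sum_dlt
    exact ⟨_, G2.sum _ fun t _ => G2.sum _ fun c' _ => G2.sum _ fun s _ => G2.sum _ fun d' _ =>
      (hC t c' s d').smul (w t c' * w s d')⟩
  have l1 : ∀ y, Tendsto (fun x => t₁ x y) 𝒰 (𝓝 0) := fun y => by
    have h3 : ∀ s d', Tendsto (fun x => ∑ t, ∑ c', w t c' * s₁ t c' s d' x y) 𝒰 (𝓝 0) := by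
      intro s d'
      refine (PS.side1 hG hL (fun c => P.sl1 B k y (ch y d')
        (Λ₁ (tm _ _ (eP (P.Uc B k) c) (z s y)) (dlt y)))
        (‖P.sl1 B k y (ch y d')‖ * (‖Λ₁‖ * K)) fun c => ?_).congr' (hG.mono fun x hx => ?_)
      · refine (ContinuousLinearMap.le_opNorm _ _).trans (mul_le_mul_of_nonneg_left
          ((Λ₁.le_opNorm₂ _ _).trans ?_) (ContinuousLinearMap.opNorm_nonneg _))
        rw [mul_assoc]
        refine mul_le_mul_of_nonneg_left ?_ (ContinuousLinearMap.opNorm_nonneg _)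
        calc _ ≤ (1 * K) * 1 := mul_le_mul ((norm_tm_le _ _).trans (mul_le_mul (PS.norm_eP _ _)
              (hzn s y) (norm_nonneg _) zero_le_one)) (PS.norm_dlt y) (norm_nonneg _)
              (by positivity)
          _ = K := by ring
      · refine Finset.sum_congr rfl fun t _ => ?_
        rw [Finset.sum_comm]
        refine Finset.sum_congr rfl fun c' _ => ?_
        simp only [s₁]
        rw [(hz' t x hx).2, h1.tb_hom_l, PS.evY_op, ind_of_mem (P.rs.clopen x) (P.rs.self x),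
          one_mul]
        simp only [map_sum, map_smul, sum_apply, smul_apply, smul_eq_mul, Finset.mul_sum,
          mul_assoc]
        exact Finset.sum_congr rfl fun c _ => congrArg _ (congrArg _ (P.evY_sl1 B k _ _ _ _ _).symm)
    have h4 := tendsto_finsetSum Finset.univ fun s _ => tendsto_finsetSum Finset.univ fun d' _ =>
      (h3 s d').const_mul (w s d')
    simp only [mul_zero, Finset.sum_const_zero] at h4
    refine h4.congr fun x => ?_
    simp only [t₁, Finset.mul_sum]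
    rw [sum4_comm]
    exact Finset.sum_congr rfl fun _ _ => Finset.sum_congr rfl fun _ _ =>
      Finset.sum_congr rfl fun _ _ => Finset.sum_congr rfl fun _ _ => by ring
  have l2 : ∀ x, Tendsto (fun y => t₂ x y) 𝒰 (𝓝 0) := fun x => by
    have h3 : ∀ t c', Tendsto (fun y => ∑ s, ∑ d', w s d' * s₂ t c' s d' x y) 𝒰 (𝓝 0) := by
      intro t c'
      refine (PS.side2 hG hL (fun d => (P.sl2 B k x (ch x c')).comp
        (Λ₂ (tm _ _ (z t x) (eP (P.Uc B k) d))))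
        (‖P.sl2 B k x (ch x c')‖ * (‖Λ₂‖ * K)) fun c y => ?_).congr' (hG.mono fun y hy => ?_)
      · refine ((P.sl2 B k x (ch x c')).le_opNorm _).trans (mul_le_mul_of_nonneg_left
          ((Λ₂.le_opNorm₂ _ _).trans ?_) (ContinuousLinearMap.opNorm_nonneg _))
        rw [mul_assoc]
        refine mul_le_mul_of_nonneg_left ?_ (ContinuousLinearMap.opNorm_nonneg _)
        calc _ ≤ (K * 1) * 1 := mul_le_mul ((norm_tm_le _ _).trans (mul_le_mul (hzn t x)
              (PS.norm_eP _ _) (norm_nonneg _) hK.le)) (PS.norm_dlt y) (norm_nonneg _)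
              (by positivity)
          _ = K := by ring
      · refine Finset.sum_congr rfl fun s _ => ?_
        rw [Finset.sum_comm]
        refine Finset.sum_congr rfl fun d' _ => ?_
        simp only [s₂]
        rw [(hz' s y hy).2, h2.tb_hom_r, op_dlt, ind_of_mem (P.rs.clopen y) (P.rs.self y),
          one_smul]
        simp only [map_sum, map_smul, sum_apply, smul_apply, smul_eq_mul, Finset.mul_sum,
          mul_assoc, ContinuousLinearMap.comp_apply]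
        exact Finset.sum_congr rfl fun c _ => congrArg _ (congrArg _ (P.evY_sl2 B k _ _ _ _ _).symm)
    have h4 := tendsto_finsetSum Finset.univ fun t _ => tendsto_finsetSum Finset.univ fun c' _ =>
      (h3 t c').const_mul (w t c')
    simp only [mul_zero, Finset.sum_const_zero] at h4
    refine h4.congr fun y => ?_
    simp only [t₂, Finset.mul_sum, mul_assoc]
  choose r hr using fun x => exists_ulim 𝒰 (fun y => t₁ x y)
    (Eventually.of_forall fun y => hC.norm_le x y)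
  have l3 : Tendsto r 𝒰 (𝓝 1) := by
    refine tendsto_const_nhds.congr' (hG.mono fun x hx => ?_)
    refine tendsto_nhds_unique ?_ (hr x)
    have := (l2 x).const_sub 1
    rw [sub_zero] at this
    exact this.congr' (hG.mono fun y hy => (ht x y hx hy).symm)
  exact one_ne_zero (noconf_comm hC 𝒰 𝒰 hr l1 l3 tendsto_const_nhds)

end Pool.Agent.MP_75da70_an.H8
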