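import Pool.Agent.MP_75da70_an.H8.PDefs

/-
Tools for the lower bound: matrices of tensors, convergent sequences and a lemma of Phillips type.
-/

namespace Pool.Agent.MP_75da70_an.H8

open Filter Topology Set H7

section GM

variable (I J : Type)

def gmS : Submodule ℂ (I → J → ℂ) where
  carrier := {M | ∃ C, 0 ≤ C ∧ G2 M C}
  add_mem' := fun ⟨_, hC, h⟩ ⟨_, hC', h'⟩ => ⟨_, add_nonneg hC hC', h.add h'⟩
  zero_mem' := ⟨0, le_rfl, G2.zero le_rfl⟩
  smul_mem' := fun c _ ⟨_, hC, h⟩ => ⟨_, mul_nonneg (norm_nonneg c) hC, h.smul c⟩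

/-- matrices that factor through Hilbert space. -/
def GM : Type := gmS I J

namespace GM

noncomputable instance : AddCommGroup (GM I J) := inferInstanceAs (AddCommGroup (gmS I J))
noncomputable instance : Module ℂ (GM I J) := inferInstanceAs (Module ℂ (gmS I J))

variable {I J}

def val (u : GM I J) : I → J → ℂ := Subtype.val u

noncomputable def nrm (u : GM I J) : ℝ := sInf {C | 0 ≤ C ∧ G2 u.val C}

theorem nrm_nonneg (u : GM I J) : 0 ≤ nrm u := Real.sInf_nonneg fun _ h => h.1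

theorem nrm_le {u : GM I J} {C : ℝ} (hC : 0 ≤ C) (h : G2 u.val C) : nrm u ≤ C :=
  csInf_le ⟨0, fun _ h => h.1⟩ ⟨hC, h⟩

theorem g2_nrm (u : GM I J) : G2 u.val (nrm u) := by
  refine G2.of_tendsto (𝓝[>] (nrm u)) (Ms := fun _ => u.val) (Cs := id) ?_
    (tendsto_id.mono_left nhdsWithin_le_nhds) fun _ _ => tendsto_const_nhds
  filter_upwards [self_mem_nhdsWithin] with C hC
  obtain ⟨C', hC', hlt⟩ := exists_lt_of_csInf_lt (Subtype.property u) hC
  exact hC'.2.mono hlt.le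

noncomputable instance : NormedAddCommGroup (GM I J) :=
  AddGroupNorm.toNormedAddCommGroup
    { toFun := nrm
      map_zero' := le_antisymm (nrm_le le_rfl (G2.zero le_rfl)) (nrm_nonneg _)
      add_le' := fun u v => nrm_le (add_nonneg u.nrm_nonneg v.nrm_nonneg) (u.g2_nrm.add v.g2_nrm)
      neg' := fun u => by
        have key : ∀ u : GM I J, nrm (-u) ≤ nrm u := fun u => nrm_le u.nrm_nonneg u.g2_nrm.neg
        exact le_antisymm (key u) (by simpa using key (-u))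
      eq_zero_of_map_eq_zero' := fun u hu => Subtype.ext (funext fun i => funext fun j => by
        have := u.g2_nrm.norm_le i j
        rw [hu] at this
        exact norm_le_zero_iff.mp this) }

theorem g2 (u : GM I J) : G2 u.val ‖u‖ := u.g2_nrm

theorem norm_le {u : GM I J} {C : ℝ} (hC : 0 ≤ C) (h : G2 u.val C) : ‖u‖ ≤ C := nrm_le hC h

noncomputable instance : NormedSpace ℂ (GM I J) where
  norm_smul_le c u := norm_le (by positivity) (u.g2.smul c)

end GM

variable {I J} {E F : Type} [NormedAddCommGroup E] [NormedSpace ℂ E] [NormedAddCommGroup F]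
  [NormedSpace ℂ F]

/-- the product of two functionals on the tensor product. -/
noncomputable def evT2 (α : E →L[ℂ] ℂ) (β : F →L[ℂ] ℂ) : PT E F →L[ℂ] ℂ :=
  PT.lift ((ContinuousLinearMap.mul ℂ ℂ).bilinearComp α β)

@[simp] theorem evT2_tm (α : E →L[ℂ] ℂ) (β : F →L[ℂ] ℂ) (e : E) (f : F) :
    evT2 α β (tm E F e f) = α e * β f := by simp [evT2]

theorem g2_rank_one (a : I → ℂ) (b : J → ℂ) {r s : ℝ} (hr : 0 ≤ r) (hs : 0 ≤ s)
    (ha : ∀ i, ‖a i‖ ≤ r) (hb : ∀ j, ‖b j‖ ≤ s) : G2 (fun i j => a i * b j) (r * s) :=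
  (G2.col b hs hb).mul_row a hr ha

theorem g2_pt (α : I → E →L[ℂ] ℂ) (β : J → F →L[ℂ] ℂ) (hα : ∀ i e, ‖α i e‖ ≤ ‖e‖)
    (hβ : ∀ j f, ‖β j f‖ ≤ ‖f‖) (t : PT E F) : G2 (fun i j => evT2 (α i) (β j) t) ‖t‖ := by
  have h1 : ∀ e f, G2 (fun i j => α i e * β j f) (‖e‖ * ‖f‖) := fun e f =>
    g2_rank_one _ _ (norm_nonneg _) (norm_nonneg _) (fun i => hα i e) fun j => hβ j f
  let γ : E →L[ℂ] F →L[ℂ] GM I J := (LinearMap.mk₂ ℂ
    (fun e f => ((⟨fun i j => α i e * β j f, _, by positivity, h1 e f⟩ : gmS I J) : GM I J))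
    (fun _ _ _ => Subtype.ext (by ext i j; simp [add_mul]))
    (fun _ _ _ => Subtype.ext (by ext i j; simp [mul_assoc]))
    (fun _ _ _ => Subtype.ext (by ext i j; simp [mul_add]))
    (fun _ _ _ => Subtype.ext (by ext i j; simp [mul_left_comm]))).mkContinuous₂ 1
    fun e f => by rw [one_mul]; exact GM.norm_le (by positivity) (h1 e f)
  have hγ : ‖γ‖ ≤ 1 := LinearMap.mkContinuous₂_norm_le _ zero_le_one _
  have h2 : ∀ x, G2 (fun i j => evT2 (α i) (β j) (evP E F x)) ‖evP E F x‖ := fun x => by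
    refine ((TensorProduct.lift γ.toLinearMap₁₂ x).g2.mono ((lift_bound γ x).trans
      (mul_le_of_le_one_left (norm_nonneg _) hγ))).congr fun i j => ?_
    induction x using TensorProduct.induction_on with
    | zero => simp only [map_zero]; rfl
    | tmul e f => exact (evT2_tm (α i) (β j) e f).symm
    | add x y hx hy => simp only [map_add, ← hx, ← hy]; rfl
  obtain ⟨u, hu, hlim⟩ := mem_closure_iff_seq_limit.mp (dense_evP E F t)
  choose x hx using hu
  refine G2.of_tendsto atTop (Ms := fun n i j => evT2 (α i) (β j) (u n)) (Cs := fun n => ‖u n‖)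
    (Eventually.of_forall fun n => hx n ▸ h2 (x n)) hlim.norm fun i j =>
      ((evT2 (α i) (β j)).continuous.tendsto t).comp hlim

theorem norm_tm_le (e : E) (f : F) : ‖tm E F e f‖ ≤ ‖e‖ * ‖f‖ := norm_evB0 E F e f

theorem g2_extract {Λ V : Type} [NormedAddCommGroup V] [NormedSpace ℂ V]
    (Φ : I → J → V →L[ℂ] ℂ) {C K : ℝ} (hC : 0 ≤ C) (hK : 0 < K)
    (hΦ : ∀ f, G2 (fun i j => Φ i j f) (C * ‖f‖)) {g : Λ → V}
    (hg : ∀ (S : Finset Λ) (θ : Λ → ℂ), (∀ c, ‖θ c‖ ≤ 1) → ‖∑ c ∈ S, θ c • g c‖ ≤ K)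
    {lab : I → J → Λ} (hlab : OneSide lab) : G2 (fun i j => Φ i j (g (lab i j))) (K * C) := by
  have hK' : (K : ℂ) ≠ 0 := by exact_mod_cast hK.ne'
  have h1 : SignBdd fun c => (K : ℂ)⁻¹ • g c := fun S θ hθ => by
    have : ∑ c ∈ S, θ c • (K : ℂ)⁻¹ • g c = (K : ℂ)⁻¹ • ∑ c ∈ S, θ c • g c := by
      rw [Finset.smul_sum]; exact Finset.sum_congr rfl fun c _ => smul_comm _ _ _
    rw [this, norm_smul, norm_inv, Complex.norm_real, Real.norm_of_nonneg hK.le,
      inv_mul_le_iff₀ hK, mul_one]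
    exact hg S θ hθ
  have h2 := (G2.extract (fun f i j => Φ i j f) (fun f f' i j => map_add _ _ _)
    (fun c f i j => map_smul _ _ _) hC hΦ h1 hlab).smul_real hK.le
  refine h2.congr fun i j => ?_
  simp only [map_smul, smul_eq_mul]
  rw [← mul_assoc, mul_inv_cancel₀ hK', one_mul]

end GM

variable {Ω : Type} [TopologicalSpace Ω] [CompactSpace Ω]

theorem PS.exists_seq (P : PS Ω) {S : Set Ω} {q : Ω} (hq : q ∈ closure S) (hS : q ∉ S) :
    ∃ y : ℕ → Ω, Function.Injective y ∧ (∀ n, y n ∈ S) ∧ Tendsto y atTop (𝓝 q) := by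
  classical
  have h1 : ∀ F : Finset Ω, ∃ y, y ∈ S ∧ y ∈ P.V q ∧ ∀ q' ∈ F, q ∉ P.V q' → y ∉ P.V q' := by
    intro F
    have h2 : P.V q ∩ ⋂ q' ∈ F.filter (fun q' => q ∉ P.V q'), (P.V q')ᶜ ∈ 𝓝 q := by
      refine inter_mem ((P.rs.clopen q).isOpen.mem_nhds (P.rs.self q)) ?_
      refine (biInter_finset_mem _).mpr fun q' hq' => ?_
      exact (P.rs.clopen q').compl.isOpen.mem_nhds (Finset.mem_filter.mp hq').2
    obtain ⟨y, ⟨h3, h4⟩, h5⟩ := mem_closure_iff_nhds.mp hq _ h2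
    exact ⟨y, h5, h3, fun q' hq' h => (mem_iInter₂.mp h4) q' (Finset.mem_filter.mpr ⟨hq', h⟩)⟩
  choose f hf1 hf2 hf3 using h1
  let F : ℕ → Finset Ω := fun n => Nat.rec ∅ (fun _ G => G ∪ (P.finite_below (f G)).toFinset) n
  have hF : ∀ n, F (n + 1) = F n ∪ (P.finite_below (f (F n))).toFinset := fun _ => rfl
  have hmono : Monotone F := monotone_nat_of_le_succ fun n => by
    rw [hF]; exact Finset.subset_union_left
  have key : ∀ m n, m < n → ∀ x, f (F m) ∈ P.V x → q ∉ P.V x → f (F n) ∉ P.V x :=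
    fun m n hmn x hx hqx => hf3 (F n) x (hmono hmn (by
      rw [hF]; exact Finset.mem_union_right _ ((Finite.mem_toFinset _).mpr hx))) hqx
  have hne : ∀ x, x ∈ P.V q → x ≠ q → q ∉ P.V x := fun x hx hxq h =>
    hxq (P.pord.anti x q h hx)
  have hlt : ∀ m n, m < n → f (F m) ≠ f (F n) := fun m n hmn e =>
    key m n hmn (f (F m)) (P.rs.self _) (hne _ (hf2 _) fun h => hS (h ▸ hf1 _))
      (e ▸ P.rs.self _)
  refine ⟨fun n => f (F n), fun m n e => ?_, fun n => hf1 _, ?_⟩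
  · rcases lt_trichotomy m n with h | h | h
    · exact absurd e (hlt m n h)
    · exact h
    · exact absurd e.symm (hlt n m h)
  · refine isCompact_univ.tendsto_nhds_of_unique_mapClusterPt (Eventually.of_forall fun _ =>
      mem_univ _) fun x _ hx => ?_
    by_contra hxq
    have h3 : x ∈ P.V q := (P.rs.clopen q).isClosed.mem_of_mapClusterPt hx
      (Eventually.of_forall fun n => hf2 _)
    have h4 := mapClusterPt_iff_frequently.mp hx _ ((P.rs.clopen x).isOpen.mem_nhds (P.rs.self x))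
    obtain ⟨m, hm⟩ := h4.exists
    obtain ⟨n, hn, hmn⟩ := (h4.and_eventually (eventually_gt_atTop m)).exists
    exact key m n hmn x hm (hne x h3 hxq) hn

/-- the point mass at `y`. -/
noncomputable def dlt (y : Ω) : Linf Ω ℂ := Linf.single y 1

omit [TopologicalSpace Ω] [CompactSpace Ω] in
theorem norm_sum_dlt (S : Finset Ω) (θ : Ω → ℂ) (hθ : ∀ c, ‖θ c‖ ≤ 1) :
    ‖∑ c ∈ S, θ c • dlt c‖ ≤ 1 := by
  classical
  refine Linf.norm_le zero_le_one fun y => ?_
  have : ∀ c, (θ c • dlt c) y = if c = y then θ y else 0 := fun c => by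
    split_ifs with h
    · subst h; simp [dlt]
    · simp [dlt, Linf.single_ne (Ne.symm h)]
  simp only [Linf.sum_val, this, Finset.sum_ite_eq']
  split_ifs
  · exact hθ y
  · simp

theorem op_dlt (a : C(Ω, ℂ)) (y : Ω) : (LX Ω).op a (dlt y) = a y • dlt y := by
  refine Linf.ext fun z => ?_
  by_cases h : z = y
  · subst h; simp
  · simp [dlt, Linf.single_ne h]

theorem PS.phillips (P : PS Ω) {κ : Type} (T : Ω → κ → Linf Ω ℂ →L[ℂ] ℂ) (q : Ω)
    (hT : ∀ ξ (η : ℝ), 0 < η → ∀ᶠ y in 𝓝 q, ∀ c, ‖T y c ξ‖ ≤ η) {η : ℝ} (hη : 0 < η) :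
    ∀ᶠ y in 𝓝 q, ∀ c, ‖T y c (dlt y)‖ ≤ η := by
  classical
  by_contra hcon
  have h1 : q ∈ closure {y | ¬ ∀ c, ‖T y c (dlt y)‖ ≤ η} :=
    mem_closure_iff_frequently.mpr (not_eventually.mp hcon)
  obtain ⟨y, hinj, hy, hlim⟩ := P.exists_seq h1 (not_not.mpr (hT _ η hη).self_of_nhds)
  simp only [mem_ofPred_eq, not_forall, not_le] at hy
  choose c hc using hy
  let ev : Linf Ω ℂ →ₗ[ℂ] Ω → ℂ :=
    { toFun := fun v => v.val
      map_add' := fun _ _ => rfl
      map_smul' := fun _ _ => rfl }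
  obtain ⟨v, γ, hv⟩ := hump (ev := ev) (fun v hv => Linf.norm_le zero_le_one hv)
    (fun g hg => ⟨Linf.mk g 1 hg, rfl⟩) (Function.invFun y)
    (fun i γ => if i ≤ γ then T (y γ) (c γ) else 0) (fun _ γ => y γ)
    (fun _ γ => Function.leftInverse_invFun hinj γ) dlt (fun z => by
      funext w
      by_cases h : w = z
      · subst h; simp [ev, dlt]
      · simp [ev, dlt, Linf.single_ne h, Pi.single_eq_of_ne h]) hη fun i => by
    filter_upwards [Nat.hyperfilter_le_atTop (eventually_ge_atTop i)] with γ hγ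
    rw [if_pos hγ]; exact (hc γ).le
  have h2 : ∀ i, i ≤ γ i := fun i => by
    by_contra h
    have := hv i
    rw [if_neg h] at this
    simp only [zero_apply, norm_zero] at this
    linarith
  have h3 := (hlim.comp (tendsto_atTop_mono h2 tendsto_id)).eventually (hT v (η / 4) (by positivity))
  obtain ⟨i, hi⟩ := h3.exists
  have h4 := hv i
  rw [if_pos (h2 i)] at h4
  have h5 : ‖T (y (γ i)) (c (γ i)) v‖ ≤ η / 4 := hi _
  linarith

end Pool.Agent.MP_75da70_an.H8
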