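import Pool.Agent.MP_75da70_an.H8.ThreeA
import Pool.Agent.MP_75da70_an.H72.PMod
import Pool.Agent.MP_75da70_an.H88.Fibre
import Pool.Agent.MP_75da70_an.H95.Weights

/-
The test space for the lower bound.
-/

namespace Pool.Agent.MP_75da70_an.H8

open Filter Topology Set H7

section Gen

variable {A : Type} [NonUnitalNormedCommRing A] [NormedSpace ℂ A] {M N X Y : LM A}
  {Λ : (TB M N).carrier →L[ℂ] (HomB X Y).carrier}

theorem mr_tb_hom
    (h1 : ∀ a e f ξ, Λ (tm _ _ (M.op a e) f) ξ = Y.op a (Λ (tm _ _ e f) ξ))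
    (h2 : ∀ a e f ξ, Λ (tm _ _ e (N.op a f)) ξ = Λ (tm _ _ e f) (X.op a ξ)) :
    Mr (TB M N) (HomB X Y) Λ := by
  refine mr_bi (fun a => pt_ext (Λ.comp ((TB M N).op (a, 0)))
    (((HomB X Y).op (a, 0)).comp Λ) fun z z' => ?_)
    (fun a => pt_ext (Λ.comp ((TB M N).op (0, a))) (((HomB X Y).op (0, a)).comp Λ) fun z z' => ?_)
  · ext ξ
    simp [h1]
  · ext ξ
    simp [h2]

theorem Mr.tb_hom_l (h : Mr (TB M N) (HomB X Y) Λ) (a e f ξ) :
    Λ (tm _ _ (M.op a e) f) ξ = Y.op a (Λ (tm _ _ e f) ξ) := by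
  simpa using DFunLike.congr_fun (h (a, 0) (tm _ _ e f)) ξ

theorem Mr.tb_hom_r (h : Mr (TB M N) (HomB X Y) Λ) (a e f ξ) :
    Λ (tm _ _ e (N.op a f)) ξ = Λ (tm _ _ e f) (X.op a ξ) := by
  simpa using DFunLike.congr_fun (h (0, a) (tm _ _ e f)) ξ

end Gen

variable {Ω : Type} [TopologicalSpace Ω] [CompactSpace Ω]

namespace PS

variable (P : PS Ω) (B : Set Ω) (k : ℕ)

/-- the fibre of a bounded function of a point and a chain. -/
noncomputable def fibE (y : Ω) : Linf (Ω × List Ω) ℂ →ₗ[ℂ] FL Ω :=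
  ∑ c ∈ (P.finite_Sx B k y).toFinset, (Finsupp.lsingle c).comp (lpEv (y, c)).toLinearMap

omit [CompactSpace Ω] in
open Classical in
theorem fibE_apply (y : Ω) (u : Linf (Ω × List Ω) ℂ) (c : List Ω) :
    P.fibE B k y u c = if c ∈ Sx P.le B k y then u (y, c) else 0 := by
  simp only [fibE, LinearMap.sum_apply, LinearMap.comp_apply, Finsupp.lsingle_apply,
    Finsupp.finsetSum_apply, Finsupp.single_apply, Finset.sum_ite_eq', Finite.mem_toFinset]
  rfl

omit [CompactSpace Ω] in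
theorem continuous_fibE (y : Ω) (φ : FL Ω →ₗ[ℂ] ℂ) :
    Continuous fun u => φ (P.fibE B k y u) := by
  simp only [fibE, LinearMap.sum_apply, LinearMap.comp_apply, Finsupp.lsingle_apply, map_sum]
  refine continuous_finsetSum _ fun c _ => ?_
  have : ∀ u : Linf (Ω × List Ω) ℂ, φ (Finsupp.single c ((lpEv (y, c)).toLinearMap u)) =
      lpEv (y, c) u * φ (Finsupp.single c 1) := fun u => by
    rw [← smul_eq_mul, ← map_smul, Finsupp.smul_single, smul_eq_mul, mul_one]; rfl
  simp only [this]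
  exact (lpEv (y, c)).continuous.mul continuous_const

/-- functions whose part outside the fibre at `q` tends to zero at `q`. -/
def nearS : Submodule ℂ (Linf (Ω × List Ω) ℂ) where
  carrier := {e | ∀ q (η : ℝ), 0 < η → ∀ᶠ y in 𝓝 q, ∀ c, c ∉ So P.le B k q → ‖e (y, c)‖ ≤ η}
  add_mem' := fun {u v} hu hv q η hη => by
    filter_upwards [hu q (η / 2) (by positivity), hv q (η / 2) (by positivity)] with y h1 h2 c hc
    rw [Linf.add_val]
    exact (norm_add_le _ _).trans (by linarith [h1 c hc, h2 c hc])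
  zero_mem' := fun q η hη => Eventually.of_forall fun y c _ => by simpa using hη.le
  smul_mem' := fun a u hu q η hη => by
    filter_upwards [hu q (η / (‖a‖ + 1)) (by positivity)] with y h1 c hc
    rw [Linf.smul_val, norm_smul]
    calc _ ≤ (‖a‖ + 1) * (η / (‖a‖ + 1)) :=
          mul_le_mul (by linarith) (h1 c hc) (norm_nonneg _) (by positivity)
      _ = η := by field_simp

omit [CompactSpace Ω] in
theorem isClosed_nearS : IsClosed (P.nearS B k : Set (Linf (Ω × List Ω) ℂ)) := by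
  refine isClosed_of_closure_subset fun u hu q η hη => ?_
  obtain ⟨v, hv, hd⟩ := Metric.mem_closure_iff.mp hu (η / 2) (by positivity)
  filter_upwards [hv q (η / 2) (by positivity)] with y hy c hc
  rw [dist_eq_norm] at hd
  have h1 := (u - v).norm_val_le (y, c)
  have h2 : u (y, c) = (u - v) (y, c) + v (y, c) := by simp
  rw [h2]
  exact (norm_add_le _ _).trans (by linarith [hy c hc])

noncomputable def eS : Submodule ℂ (Linf (Ω × List Ω) ℂ) :=
  P.nearS B k ⊓ ⨅ y, (Zf P.le B k y).comap (P.fibE B k y)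

omit [CompactSpace Ω] in
theorem mem_eS {e : Linf (Ω × List Ω) ℂ} :
    e ∈ P.eS B k ↔ e ∈ P.nearS B k ∧ ∀ y, P.fibE B k y e ∈ Zf P.le B k y := by
  simp [eS]

omit [CompactSpace Ω] in
theorem isClosed_eS : IsClosed (P.eS B k : Set (Linf (Ω × List Ω) ℂ)) := by
  have : (P.eS B k : Set (Linf (Ω × List Ω) ℂ)) =
      (P.nearS B k : Set (Linf (Ω × List Ω) ℂ)) ∩
      ⋂ x, ((⋂ c ∈ (So P.le B k x)ᶜ, {u | Finsupp.lapply (R := ℂ) c (P.fibE B k x u) = 0}) ∩
        ⋂ c, {u | ((Finsupp.lapply (R := ℂ) c).comp dF) (P.fibE B k x u) = 0}) := by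
    ext u
    simp only [SetLike.mem_coe, mem_eS, Zf, Submodule.mem_inf, Finsupp.mem_supported',
      LinearMap.mem_ker, mem_inter_iff, mem_iInter, mem_compl_iff, mem_ofPred_eq,
      Finsupp.lapply_apply, LinearMap.comp_apply, Finsupp.ext_iff, Finsupp.coe_zero, Pi.zero_apply]
  rw [this]
  exact (P.isClosed_nearS B k).inter (isClosed_iInter fun x => (isClosed_biInter fun c _ =>
    isClosed_eq (P.continuous_fibE B k x _) continuous_const).inter (isClosed_iInter fun c =>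
      isClosed_eq (P.continuous_fibE B k x _) continuous_const))

/-- the test space. -/
def ET : Type := P.eS B k

noncomputable instance : NormedAddCommGroup (P.ET B k) :=
  inferInstanceAs (NormedAddCommGroup (P.eS B k))
noncomputable instance : NormedSpace ℂ (P.ET B k) := inferInstanceAs (NormedSpace ℂ (P.eS B k))
instance : CompleteSpace (P.ET B k) := (P.isClosed_eS B k).completeSpace_coe

variable {P B k}

/-- the underlying function. -/
noncomputable def ET.valL : P.ET B k →L[ℂ] Linf (Ω × List Ω) ℂ := (P.eS B k).subtypeL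

omit [CompactSpace Ω] in
theorem ET.mem (e : P.ET B k) : ET.valL e ∈ P.eS B k := Subtype.property e

omit [CompactSpace Ω] in
theorem ET.norm_valL (e : P.ET B k) : ‖ET.valL e‖ = ‖e‖ := rfl

omit [CompactSpace Ω] in
theorem ET.ext {e e' : P.ET B k} (h : ∀ z, ET.valL e z = ET.valL e' z) : e = e' :=
  Subtype.ext (Linf.ext h)

theorem z_zero {u : Linf (List Ω) C(Ω, ℂ)} (hu : u ∈ P.zS B k) {q : Ω} {c : List Ω}
    (hc : c ∉ So P.le B k q) : u c q = 0 := by
  by_cases h : c ∈ Sx P.le B k q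
  · have := (Finsupp.mem_supported' _ _).mp ((P.mem_zS.mp hu).2 q).1 c hc
    rwa [P.fib_apply, if_pos h] at this
  · exact (mem_pmS.mp (P.mem_zS.mp hu).1).2 c q h

theorem norm_coord_le (u : Linf (List Ω) C(Ω, ℂ)) (c : List Ω) (x : Ω) : ‖u c x‖ ≤ ‖u‖ :=
  ((u c).norm_coe_le_norm x).trans (u.norm_val_le c)

variable [T2Space Ω] [TotallyDisconnectedSpace Ω]

theorem z_near {u : Linf (List Ω) C(Ω, ℂ)} (hu : u ∈ P.zS B k) (q : Ω) {η : ℝ} (hη : 0 < η) :
    ∀ᶠ x in 𝓝 q, ∀ c, c ∉ So P.le B k q → ‖u c x‖ ≤ η := by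
  filter_upwards [c0_cont (P.mem_zS.mp hu).1.1 q hη] with x hx c hc
  simpa [z_zero hu hc] using hx c

/-- the product of a cycle and a bounded function. -/
noncomputable def beta0 (z : (P.ZK B k).carrier) (ξ : Linf Ω ℂ) : P.ET B k :=
  (⟨Linf.mk (fun w => ξ w.1 * z.1 w.2 w.1) (1 * ‖z‖ * ‖ξ‖) fun w => by
      rw [norm_mul, one_mul, mul_comm]
      exact mul_le_mul (norm_coord_le z.1 _ _) (ξ.norm_val_le _) (norm_nonneg _) (norm_nonneg _),
    (P.mem_eS B k).mpr ⟨fun q η hη => by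
      filter_upwards [z_near z.2 q (η := η / (‖ξ‖ + 1)) (by positivity)] with y hy c hc
      rw [Linf.mk_val, norm_mul]
      calc _ ≤ (‖ξ‖ + 1) * (η / (‖ξ‖ + 1)) :=
            mul_le_mul (by linarith [ξ.norm_val_le y]) (hy c hc) (norm_nonneg _) (by positivity)
        _ = η := by field_simp, fun y => by
      convert Submodule.smul_mem _ (ξ y) ((P.mem_zS.mp z.2).2 y) using 1
      ext c
      simp only [fibE_apply, Finsupp.smul_apply, fib_apply, smul_eq_mul, Linf.mk_val]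
      split_ifs <;> simp⟩⟩ : P.eS B k)

theorem beta0_val (z : (P.ZK B k).carrier) (ξ : Linf Ω ℂ) (w : Ω × List Ω) :
    ET.valL (beta0 z ξ) w = ξ w.1 * z.1 w.2 w.1 := rfl

variable (P B k)

noncomputable def beta : (P.ZK B k).carrier →L[ℂ] Linf Ω ℂ →L[ℂ] P.ET B k :=
  (LinearMap.mk₂ ℂ beta0
    (fun _ _ _ => ET.ext fun w => by simp [beta0_val, mul_add])
    (fun _ _ _ => ET.ext fun w => by simp [beta0_val, mul_left_comm])
    (fun _ _ _ => ET.ext fun w => by simp [beta0_val, add_mul])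
    (fun _ _ _ => ET.ext fun w => by simp [beta0_val, mul_assoc])).mkContinuous₂ 1
    fun z ξ => Linf.norm_le (by positivity) fun w => by
      change ‖ξ w.1 * z.1 w.2 w.1‖ ≤ _
      rw [norm_mul, one_mul, mul_comm]
      exact mul_le_mul (norm_coord_le z.1 _ _) (ξ.norm_val_le _) (norm_nonneg _) (norm_nonneg _)

theorem beta_val (z : (P.ZK B k).carrier) (ξ : Linf Ω ℂ) (w : Ω × List Ω) :
    ET.valL (P.beta B k z ξ) w = ξ w.1 * z.1 w.2 w.1 := rfl

theorem beta_op (a : C(Ω, ℂ)) (z : (P.ZK B k).carrier) (ξ : Linf Ω ℂ) :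
    P.beta B k ((P.ZK B k).op a z) ξ = P.beta B k z ((LX Ω).op a ξ) :=
  ET.ext fun w => by
    rw [beta_val, beta_val]
    simp only [subOp_val, lpOp_apply, ContinuousLinearMap.mul_apply', ContinuousMap.mul_apply,
      ptOp_apply]
    ring

/-- the test module. -/
@[reducible] noncomputable def YT : LM C(Ω, ℂ) := TL (P.ZK B k) (P.ET B k)

noncomputable def Phi : PT (P.ZK B k).carrier (P.ZK B k).carrier →L[ℂ]
    (Linf Ω ℂ →L[ℂ] PT (P.ZK B k).carrier (P.ET B k)) :=
  PT.lift ((ContinuousLinearMap.compL ℂ (Linf Ω ℂ) (P.ET B k) _).bilinearComp (tm _ _)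
    (P.beta B k))

theorem Phi_tm (z z' : (P.ZK B k).carrier) (ξ : Linf Ω ℂ) :
    P.Phi B k (tm _ _ z z') ξ = tm _ _ z (P.beta B k z' ξ) := by
  simp [Phi]

theorem mr_Phi : Mr (TB (P.ZK B k) (P.ZK B k)) (HomB (LX Ω) (P.YT B k)) (P.Phi B k) :=
  mr_tb_hom (fun a z z' ξ => by
    rw [Phi_tm, Phi_tm]; exact (lact_tm _ _ _ _).symm) fun a z z' ξ => by
    rw [Phi_tm, Phi_tm, beta_op]

end PS

end Pool.Agent.MP_75da70_an.H8
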